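import Pool.Agent.T2H58.LU.Smo
import Pool.Agent.R485.Trans.Saw

/-! The integer parts of a smooth function are equidistributed modulo small `q`, with a power saving. -/

set_option autoImplicit false

namespace Pool.Agent.T2H58.DQ

open Finset
open Pool.Agent.Helper153.Vdc Pool.Agent.T2H58.LU

theorem e_eq (x : ℝ) : Pool.Agent.H469R2.NK.e x = ee x := by
  unfold Pool.Agent.H469R2.NK.e ee
  congr 1
  push_cast
  ring

/-- Residues and fractional parts. -/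
theorem mod_iff {q : ℕ} (hq : 1 ≤ q) (y : ℝ) {v : ℤ} (hv : 0 ≤ v) (hvq : v < q) :
    ⌊y⌋ % (q : ℤ) = v ↔ Int.fract ((y - v) / q) < 1 / q := by
  have hq0 : (0 : ℝ) < q := by exact_mod_cast hq
  constructor
  · intro h
    have h1 : (⌊y⌋ : ℤ) = (q : ℤ) * (⌊y⌋ / (q : ℤ)) + v := by
      have := Int.mul_ediv_add_emod ⌊y⌋ (q : ℤ)
      rw [h] at this
      exact this.symm
    have h2 : (⌊y⌋ : ℝ) = (q : ℝ) * ((⌊y⌋ / (q : ℤ) : ℤ) : ℝ) + v := by exact_mod_cast h1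
    have h3 : (y - v) / q = Int.fract y / q + ((⌊y⌋ / (q : ℤ) : ℤ) : ℝ) := by
      have h4 : y = Int.fract y + ⌊y⌋ := (Int.fract_add_floor y).symm
      rw [div_eq_iff hq0.ne', add_mul, div_mul_cancel₀ _ hq0.ne']
      linarith
    have h4 : Int.fract y / q < 1 / q := by
      have := Int.fract_lt_one y
      gcongr
    have h5 : 1 / (q : ℝ) ≤ 1 := by
      rw [div_le_one hq0]; exact_mod_cast hq
    have h6 : 0 ≤ Int.fract y / q := div_nonneg (Int.fract_nonneg y) hq0.le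
    rw [h3, Int.fract_add_intCast, Int.fract_eq_self.2 ⟨h6, h4.trans_le h5⟩]
    exact h4
  · intro h
    obtain ⟨m, hm⟩ : ∃ m : ℤ, m = ⌊(y - v) / q⌋ := ⟨_, rfl⟩
    have h1 : (y - v) / q = Int.fract ((y - v) / q) + m := by rw [hm]; exact (Int.fract_add_floor _).symm
    have h0 := Int.fract_nonneg ((y - v) / q)
    rw [lt_div_iff₀ hq0] at h
    have h2 : y = (v + q * m : ℤ) + Int.fract ((y - v) / q) * q := by
      have h3 : (y - v) / q * q = (Int.fract ((y - v) / q) + m) * q := by rw [← h1]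
      rw [div_mul_cancel₀ _ hq0.ne'] at h3
      push_cast
      linarith
    have h4 : ⌊y⌋ = v + q * m := by
      rw [Int.floor_eq_iff]
      constructor
      · have : 0 ≤ Int.fract ((y - v) / q) * q := by positivity
        linarith
      · linarith
    rw [h4, Int.add_mul_emod_self_left, Int.emod_eq_of_lt hv hvq]

/-- Equidistribution on a dyadic block. -/
theorem eq_block (k : ℕ) (hk : 2 ≤ k) (A : ℝ) (hA : 1 ≤ A) (η : ℝ) (hη : 0 < η) (hη1 : η < 1) :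
    ∃ θ : ℝ, 0 < θ ∧ θ ≤ 1 ∧ ∃ C : ℝ, 1 ≤ C ∧ ∀ (X : ℕ) (G : ℕ → ℝ → ℝ) (s lam : ℝ), 1 ≤ X → Blk k A G X s lam →
      (X : ℝ) ^ (-2 + η) ≤ lam → lam ≤ (X : ℝ) ^ (-η) → ∀ q : ℕ, 1 ≤ q → (q : ℝ) ≤ (X : ℝ) ^ θ →
      ∀ v : ℤ, 0 ≤ v → v < q →
      |(((Ioc X (2 * X)).filter (fun n : ℕ => ⌊G 0 n⌋ % (q : ℤ) = v)).card : ℝ) - (X : ℝ) / q| ≤ C * (X : ℝ) ^ (1 - θ) := by
  obtain ⟨σ, hσ, C, hC, h⟩ := exp_block k hk A hA (η / 2) (by linarith) (by linarith)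
  obtain ⟨θ, hθdef⟩ : ∃ θ, θ = min (min (σ / 4) (η / 4)) 1 := ⟨_, rfl⟩
  have hθ : 0 < θ := by rw [hθdef]; positivity
  have hθ1 : θ ≤ 1 := by rw [hθdef]; exact min_le_right _ _
  have hθσ : θ ≤ σ / 4 := by rw [hθdef]; exact (min_le_left _ _).trans (min_le_left _ _)
  have hθη : θ ≤ η / 4 := by rw [hθdef]; exact (min_le_left _ _).trans (min_le_right _ _)
  refine ⟨θ, hθ, hθ1, 2 * C + 8, by linarith, ?_⟩
  intro X G s lam hX hB h1 h2 q hq hqX v hv hvq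
  have hX0 : (1 : ℝ) ≤ X := by exact_mod_cast hX
  have hXp : (0 : ℝ) < X := by linarith
  have hq0 : (0 : ℝ) < q := by exact_mod_cast hq
  have hq1 : (1 : ℝ) ≤ q := by exact_mod_cast hq
  have hlam : 0 < lam := lt_of_lt_of_le (Real.rpow_pos_of_pos hXp _) h1
  have hXθ : 1 ≤ (X : ℝ) ^ θ := Real.one_le_rpow hX0 hθ.le
  obtain ⟨L, hL⟩ : ∃ L, L = ⌊(X : ℝ) ^ θ⌋₊ := ⟨_, rfl⟩
  have hL1 : 1 ≤ L := by rw [hL]; exact Nat.le_floor (by simpa using hXθ)
  have hLr : (1 : ℝ) ≤ L := by exact_mod_cast hL1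
  have hL0 : (0 : ℝ) < L := by linarith
  have hLX : (L : ℝ) ≤ (X : ℝ) ^ θ := by rw [hL]; exact Nat.floor_le (by positivity)
  have hLX2 : (X : ℝ) ^ θ ≤ 2 * L := by
    have := Nat.lt_floor_add_one ((X : ℝ) ^ θ)
    rw [← hL] at this
    linarith
  have hcard : ((Ioc X (2 * X)).card : ℝ) = X := by
    rw [Nat.card_Ioc]
    congr 1
    omega
  -- the exponential sums
  have hexp : ∀ a : ℕ, 1 ≤ a → a ≤ L ^ 2 → ∀ c : ℝ, ‖∑ n ∈ Ioc X (2 * X), ee (a * ((G 0 n - v) / q - c))‖ ≤ C * (X : ℝ) ^ (1 - σ) := by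
    intro a ha1 ha2 c
    have ha1r : (1 : ℝ) ≤ a := by exact_mod_cast ha1
    have ha2r : (a : ℝ) ≤ (L : ℝ) ^ 2 := by exact_mod_cast ha2
    have hβ : 0 ≤ (a : ℝ) / q := by positivity
    have h3 : ∀ n : ℕ, (a : ℝ) * ((G 0 n - v) / q - c) = (a : ℝ) / q * G 0 n - (a * (v / q + c)) := by
      intro n; field_simp; ring
    have h4 : ∑ n ∈ Ioc X (2 * X), ee (a * ((G 0 n - v) / q - c)) =
        ∑ n ∈ Ioc X (2 * X), ee ((fun n : ℕ => (a : ℝ) / q * G 0 n) n - (a * (v / q + c))) :=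
      sum_congr rfl fun n _ => by rw [h3]
    rw [h4, sum_ee_const]
    have ha3 : (a : ℝ) ≤ (X : ℝ) ^ (η / 2) := by
      refine ha2r.trans ((pow_le_pow_left₀ hL0.le hLX 2).trans ?_)
      rw [← Real.rpow_natCast, ← Real.rpow_mul hXp.le]
      exact Real.rpow_le_rpow_of_exponent_le hX0 (by push_cast; linarith)
    have hq2 : (q : ℝ) ≤ (X : ℝ) ^ (η / 2) := hqX.trans (Real.rpow_le_rpow_of_exponent_le hX0 (by linarith))
    exact h X (fun j x => (a : ℝ) / q * G j x) s ((a : ℝ) / q * lam) hX (hB.smul hβ) (by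
      calc (X : ℝ) ^ (-2 + η / 2) = (X : ℝ) ^ (-(η / 2)) * (X : ℝ) ^ (-2 + η) := by
            rw [← Real.rpow_add hXp]; congr 1; ring
        _ ≤ (a : ℝ) / q * lam := by
            apply mul_le_mul _ h1 (by positivity) hβ
            rw [Real.rpow_neg hXp.le, ← one_div]
            rw [div_le_div_iff₀ (by positivity) hq0]
            nlinarith) (by
      calc (a : ℝ) / q * lam ≤ (X : ℝ) ^ (η / 2) * (X : ℝ) ^ (-η) := by
            apply mul_le_mul _ h2 hlam.le (by positivity)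
            refine (div_le_self (by positivity) hq1).trans ha3
        _ = (X : ℝ) ^ (-(η / 2)) := by rw [← Real.rpow_add hXp]; congr 1; ring)
  have hsaw : ∀ c : ℝ, |∑ n ∈ Ioc X (2 * X), (Int.fract ((G 0 n - v) / q - c) - 1 / 2)| ≤ (C + 4) * (X : ℝ) ^ (1 - θ) := by
    intro c
    have h3 := Pool.Agent.R485.Trans.saw_bound (Ioc X (2 * X)) (fun n : ℕ => (G 0 n - v) / q - c) (L ^ 2)
      (Nat.one_le_pow _ _ (by omega)) (1 / L) (by positivity) (by rw [div_le_one hL0]; exact hLr)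
    refine h3.trans ?_
    have h4 : ∑ a ∈ Icc 1 (L ^ 2), ‖∑ n ∈ Ioc X (2 * X), Pool.Agent.H469R2.NK.e (a * ((G 0 n - v) / q - c))‖ / a ≤
        C * (X : ℝ) ^ (1 - θ) := by
      have h5 : ∀ a ∈ Icc 1 (L ^ 2), ‖∑ n ∈ Ioc X (2 * X), Pool.Agent.H469R2.NK.e (a * ((G 0 n - v) / q - c))‖ / a ≤
          C * (X : ℝ) ^ (1 - σ) := by
        intro a ha
        rw [mem_Icc] at ha
        have ha1r : (1 : ℝ) ≤ a := by exact_mod_cast ha.1
        simp only [e_eq]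
        exact (div_le_self (norm_nonneg _) ha1r).trans (hexp a ha.1 ha.2 c)
      refine (sum_le_sum h5).trans ?_
      rw [sum_const, Nat.card_Icc, nsmul_eq_mul]
      have h6 : ((L ^ 2 + 1 - 1 : ℕ) : ℝ) ≤ (X : ℝ) ^ (2 * θ) := by
        have e : L ^ 2 + 1 - 1 = L ^ 2 := by omega
        rw [e]
        push_cast
        refine (pow_le_pow_left₀ hL0.le hLX 2).trans (le_of_eq ?_)
        rw [← Real.rpow_natCast, ← Real.rpow_mul hXp.le]
        congr 1; push_cast; ring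
      calc ((L ^ 2 + 1 - 1 : ℕ) : ℝ) * (C * (X : ℝ) ^ (1 - σ)) ≤ (X : ℝ) ^ (2 * θ) * (C * (X : ℝ) ^ (1 - σ)) := by
            gcongr
        _ = C * ((X : ℝ) ^ (2 * θ) * (X : ℝ) ^ (1 - σ)) := by ring
        _ = C * (X : ℝ) ^ (2 * θ + (1 - σ)) := by rw [Real.rpow_add hXp]
        _ ≤ C * (X : ℝ) ^ (1 - θ) := by
            gcongr
            linarith
    have h7 : (X : ℝ) / L ≤ 2 * (X : ℝ) ^ (1 - θ) := by
      rw [div_le_iff₀ hL0]
      calc (X : ℝ) = (X : ℝ) ^ (1 - θ) * (X : ℝ) ^ θ := by rw [← Real.rpow_add hXp]; simp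
        _ ≤ (X : ℝ) ^ (1 - θ) * (2 * L) := by gcongr
        _ = _ := by ring
    rw [hcard]
    have e1 : (X : ℝ) / (((L ^ 2 : ℕ) : ℝ) * (1 / L)) = X / L := by
      push_cast; field_simp
    have e2 : (X : ℝ) * (1 / L) = X / L := by ring
    rw [e1, e2]
    linarith
  have hcount : (((Ioc X (2 * X)).filter (fun n : ℕ => ⌊G 0 n⌋ % (q : ℤ) = v)).card : ℝ) - (X : ℝ) / q =
      ∑ n ∈ Ioc X (2 * X), (Int.fract ((G 0 n - v) / q - 1 / q) - 1 / 2) -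
      ∑ n ∈ Ioc X (2 * X), (Int.fract ((G 0 n - v) / q - 0) - 1 / 2) := by
    rw [← sum_sub_distrib]
    have h3 : ∀ n ∈ Ioc X (2 * X), (Int.fract ((G 0 n - v) / q - 1 / q) - 1 / 2) - (Int.fract ((G 0 n - v) / q - 0) - 1 / 2) =
        (if ⌊G 0 n⌋ % (q : ℤ) = v then (1 : ℝ) else 0) - 1 / q := by
      intro n _
      have h4 := Pool.Agent.R485.Trans.indicator_eq ((G 0 n - v) / q) 0 (1 / q) le_rfl (by positivity)
        (by rw [div_le_one hq0]; exact hq1)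
      rw [← h4, sub_zero]
      congr 1
      by_cases h5 : ⌊G 0 n⌋ % (q : ℤ) = v
      · rw [if_pos h5, if_pos ⟨Int.fract_nonneg _, (mod_iff hq _ hv hvq).1 h5⟩]
      · rw [if_neg h5, if_neg fun h6 => h5 ((mod_iff hq _ hv hvq).2 h6.2)]
    rw [sum_congr rfl h3, sum_sub_distrib, sum_boole, sum_const, nsmul_eq_mul, hcard]
    ring
  rw [hcount]
  have h3 := hsaw (1 / q)
  have h4 := hsaw 0
  refine (abs_sub _ _).trans ?_
  linarith

/-- Equidistribution of the integer parts of a smooth function. -/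
theorem eq_reg (k : ℕ) (hk : 2 ≤ k) (x₀ : ℝ) (η : ℝ) (hη : 0 < η) (hη1 : η < 1) (A : ℝ) (hA : 1 ≤ A) :
    ∃ θ : ℝ, 0 < θ ∧ θ ≤ 1 ∧ ∃ C : ℝ, 1 ≤ C ∧ ∀ f : ℝ → ℝ, Regular k x₀ η A f → ∀ x q : ℕ, 1 ≤ x → 1 ≤ q →
      (q : ℝ) ≤ (x : ℝ) ^ θ → ∀ v : ℤ, 0 ≤ v → v < q →
      |(((Ioc 0 x).filter (fun n : ℕ => ⌊f n⌋ % (q : ℤ) = v)).card : ℝ) - (x : ℝ) / q| ≤ C * (x : ℝ) ^ (1 - θ) := by
  obtain ⟨θ0, hθ0, hθ01, C0, hC0, hbl⟩ := eq_block k hk A hA (η / 2) (by linarith) (by linarith)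
  obtain ⟨τ, hτdef⟩ : ∃ τ, τ = min θ0 (1 / 2) := ⟨_, rfl⟩
  have hτ : 0 < τ := by rw [hτdef]; positivity
  have hτ0 : τ ≤ θ0 := by rw [hτdef]; exact min_le_left _ _
  have hτ1 : τ ≤ 1 / 2 := by rw [hτdef]; exact min_le_right _ _
  obtain ⟨X1, hX1def⟩ : ∃ X1 : ℕ, X1 = max (max ⌈x₀⌉₊ ⌈(4 : ℝ) ^ (2 / η)⌉₊) 2 := ⟨_, rfl⟩
  have hX12 : 2 ≤ X1 := by rw [hX1def]; exact le_max_right _ _
  have hX1a : x₀ ≤ X1 := by
    have h1 : ⌈x₀⌉₊ ≤ X1 := by rw [hX1def]; exact (le_max_left _ _).trans (le_max_left _ _)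
    have h2 : (⌈x₀⌉₊ : ℝ) ≤ X1 := by exact_mod_cast h1
    exact (Nat.le_ceil x₀).trans h2
  have hX1b : (4 : ℝ) ^ (2 / η) ≤ X1 := by
    have h1 : ⌈(4 : ℝ) ^ (2 / η)⌉₊ ≤ X1 := by rw [hX1def]; exact (le_max_right _ _).trans (le_max_left _ _)
    have h2 : (⌈(4 : ℝ) ^ (2 / η)⌉₊ : ℝ) ≤ X1 := by exact_mod_cast h1
    exact (Nat.le_ceil _).trans h2
  have hX1r : (2 : ℝ) ≤ X1 := by exact_mod_cast hX12
  obtain ⟨K, hK⟩ : ∃ K, K = 3 * (C0 + 1) := ⟨_, rfl⟩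
  refine ⟨τ / 2, by positivity, by linarith, (3 + 2 * X1 + 1) + K, by rw [hK]; linarith, ?_⟩
  rintro f ⟨F, hF0, hder, s, hs, hF, hanti⟩
  -- blocks
  have hblock : ∀ X : ℕ, X1 ≤ X → ∀ q : ℕ, 1 ≤ q → (q : ℝ) ≤ (X : ℝ) ^ τ → ∀ v : ℤ, 0 ≤ v → v < q →
      |(((Ioc X (2 * X)).filter (fun n : ℕ => ⌊f n⌋ % (q : ℤ) = v)).card : ℝ) - (X : ℝ) / q| ≤ C0 * (X : ℝ) ^ (1 - τ) := by
    intro X hXX q hq hqX v hv hvq
    have hXr : (X1 : ℝ) ≤ X := by exact_mod_cast hXX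
    have hX2 : (2 : ℝ) ≤ X := hX1r.trans hXr
    have hXp : (0 : ℝ) < X := by linarith
    have hx0 : x₀ ≤ X := hX1a.trans hXr
    have hB : Blk k A F X s (s * F k (2 * X)) := by
      refine ⟨fun j hj x hx => hder j hj x (hx0.trans hx.1), hs, fun x hx => hanti x _ (hx0.trans hx.1) hx.2, ?_, ?_⟩
      · intro x hx
        exact (hanti X x hx0 hx.1).trans (hF X hx0).2.2
      · intro x hx y hy hxy
        exact hanti x y (hx0.trans hx.1) hxy
    have h2X := hF (2 * X) (by linarith)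
    have h4 : (4 : ℝ) ≤ (X : ℝ) ^ (η / 2) := by
      have h5 : ((4 : ℝ) ^ (2 / η)) ^ (η / 2) ≤ (X : ℝ) ^ (η / 2) :=
        Real.rpow_le_rpow (by positivity) (hX1b.trans hXr) (by linarith)
      rw [← Real.rpow_mul (by norm_num)] at h5
      have e : 2 / η * (η / 2) = 1 := by field_simp
      rwa [e, Real.rpow_one] at h5
    have h5 := hbl X F s (s * F k (2 * X)) (by omega) hB (by
      refine le_trans ?_ h2X.1
      rw [Real.mul_rpow (by norm_num) hXp.le]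
      have h6 : (2 : ℝ) ^ (-2 : ℝ) ≤ 2 ^ (-2 + η) := Real.rpow_le_rpow_of_exponent_le (by norm_num) (by linarith)
      have h7 : (2 : ℝ) ^ (-2 : ℝ) = 1 / 4 := by
        rw [Real.rpow_neg (by norm_num)]
        norm_num
      have h8 : (X : ℝ) ^ (-2 + η) = (X : ℝ) ^ (-2 + η / 2) * (X : ℝ) ^ (η / 2) := by
        rw [← Real.rpow_add hXp]; congr 1; ring
      have h9 : 0 < (X : ℝ) ^ (-2 + η / 2) := Real.rpow_pos_of_pos hXp _
      rw [h7] at h6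
      calc (X : ℝ) ^ (-2 + η / 2) = 1 / 4 * ((X : ℝ) ^ (-2 + η / 2) * 4) := by ring
        _ ≤ 1 / 4 * ((X : ℝ) ^ (-2 + η / 2) * (X : ℝ) ^ (η / 2)) := by gcongr
        _ = 1 / 4 * (X : ℝ) ^ (-2 + η) := by rw [h8]
        _ ≤ 2 ^ (-2 + η) * (X : ℝ) ^ (-2 + η) := by gcongr) (by
      refine h2X.2.1.trans ?_
      calc (2 * (X : ℝ)) ^ (-η) ≤ (X : ℝ) ^ (-η) := Real.rpow_le_rpow_of_nonpos hXp (by linarith) (by linarith)
        _ ≤ (X : ℝ) ^ (-(η / 2)) := Real.rpow_le_rpow_of_exponent_le (by linarith) (by linarith)) q hq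
      (hqX.trans (Real.rpow_le_rpow_of_exponent_le (by linarith) hτ0)) v hv hvq
    rw [hF0] at h5
    refine h5.trans ?_
    apply mul_le_mul_of_nonneg_left _ (by linarith)
    exact Real.rpow_le_rpow_of_exponent_le (by linarith) (by linarith)
  -- the induction
  have hind : ∀ q : ℕ, 1 ≤ q → ∀ v : ℤ, 0 ≤ v → v < q → ∀ x : ℕ,
      |(((Ioc 0 x).filter (fun n : ℕ => ⌊f n⌋ % (q : ℤ) = v)).card : ℝ) - (x : ℝ) / q| ≤
        3 * (q : ℝ) ^ (1 / τ) + (2 * X1 + 1) + K * (x : ℝ) ^ (1 - τ) := by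
    intro q hq v hv hvq x
    have hq0 : (0 : ℝ) < q := by exact_mod_cast hq
    have hq1 : (1 : ℝ) ≤ q := by exact_mod_cast hq
    have hQ1 : 1 ≤ (q : ℝ) ^ (1 / τ) := Real.one_le_rpow hq1 (by positivity)
    have hKpos : 0 ≤ K := by rw [hK]; linarith
    induction x using Nat.strong_induction_on with
    | _ x ih =>
      obtain ⟨X, hX⟩ : ∃ X, X = x / 2 := ⟨_, rfl⟩
      have hx1 : 2 * X ≤ x := by omega
      have hx2 : x ≤ 2 * X + 1 := by omega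
      have htriv : |(((Ioc 0 x).filter (fun n : ℕ => ⌊f n⌋ % (q : ℤ) = v)).card : ℝ) - (x : ℝ) / q| ≤ x := by
        have h1 : (((Ioc 0 x).filter (fun n : ℕ => ⌊f n⌋ % (q : ℤ) = v)).card : ℝ) ≤ x := by
          have := card_filter_le (Ioc 0 x) (fun n : ℕ => ⌊f n⌋ % (q : ℤ) = v)
          rw [Nat.card_Ioc] at this
          have h2 : ((Ioc 0 x).filter (fun n : ℕ => ⌊f n⌋ % (q : ℤ) = v)).card ≤ x := by omega
          exact_mod_cast h2
        have h2 : (x : ℝ) / q ≤ x := div_le_self (Nat.cast_nonneg _) hq1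
        have h3 : 0 ≤ (x : ℝ) / q := by positivity
        have h4 : (0 : ℝ) ≤ (((Ioc 0 x).filter (fun n : ℕ => ⌊f n⌋ % (q : ℤ) = v)).card : ℝ) := Nat.cast_nonneg _
        rw [abs_le]
        constructor <;> linarith
      have hpow0 : 0 ≤ K * (x : ℝ) ^ (1 - τ) := by positivity
      have hX1r0 : (0 : ℝ) ≤ X1 := Nat.cast_nonneg _
      by_cases hXX : X < X1
      · refine htriv.trans ?_
        have h1 : (x : ℝ) ≤ 2 * X1 + 1 := by
          have : x ≤ 2 * X1 + 1 := by omega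
          exact_mod_cast this
        linarith
      push Not at hXX
      by_cases hqX : (X : ℝ) ^ τ < q
      · refine htriv.trans ?_
        have h1 : (X : ℝ) ≤ (q : ℝ) ^ (1 / τ) := by
          have h2 : ((X : ℝ) ^ τ) ^ (1 / τ) ≤ (q : ℝ) ^ (1 / τ) :=
            Real.rpow_le_rpow (by positivity) hqX.le (by positivity)
          rw [← Real.rpow_mul (Nat.cast_nonneg _)] at h2
          have e : τ * (1 / τ) = 1 := by field_simp
          rwa [e, Real.rpow_one] at h2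
        have h2 : (x : ℝ) ≤ 2 * X + 1 := by exact_mod_cast hx2
        linarith
      push Not at hqX
      have hXpos : 0 < X := by omega
      have hXr : (0 : ℝ) < X := by exact_mod_cast hXpos
      have h1 := ih X (by omega)
      have h2 := hblock X hXX q hq hqX v hv hvq
      -- split
      have hsplit : ∃ t : ℝ, 0 ≤ t ∧ t ≤ 1 ∧ (((Ioc 0 x).filter (fun n : ℕ => ⌊f n⌋ % (q : ℤ) = v)).card : ℝ) =
          (((Ioc 0 X).filter (fun n : ℕ => ⌊f n⌋ % (q : ℤ) = v)).card : ℝ) +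
          (((Ioc X (2 * X)).filter (fun n : ℕ => ⌊f n⌋ % (q : ℤ) = v)).card : ℝ) + t := by
        have e1 : Ioc 0 x = (Ioc 0 X ∪ Ioc X (2 * X)) ∪ Ioc (2 * X) x := by
          rw [Ioc_union_Ioc_eq_Ioc (by omega) (by omega), Ioc_union_Ioc_eq_Ioc (by omega) hx1]
        have d1 : Disjoint (Ioc 0 X) (Ioc X (2 * X)) := by
          rw [disjoint_left]; intro a ha hb; rw [mem_Ioc] at ha hb; omega
        have d2 : Disjoint (Ioc 0 X ∪ Ioc X (2 * X)) (Ioc (2 * X) x) := by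
          rw [disjoint_left]; intro a ha hb; rw [mem_union, mem_Ioc, mem_Ioc] at ha; rw [mem_Ioc] at hb; omega
        refine ⟨(((Ioc (2 * X) x).filter (fun n : ℕ => ⌊f n⌋ % (q : ℤ) = v)).card : ℝ), Nat.cast_nonneg _, ?_, ?_⟩
        · have := card_filter_le (Ioc (2 * X) x) (fun n : ℕ => ⌊f n⌋ % (q : ℤ) = v)
          rw [Nat.card_Ioc] at this
          have h3 : ((Ioc (2 * X) x).filter (fun n : ℕ => ⌊f n⌋ % (q : ℤ) = v)).card ≤ 1 := by omega
          exact_mod_cast h3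
        · rw [e1, filter_union, filter_union, card_union_of_disjoint, card_union_of_disjoint]
          · push_cast; ring
          · exact disjoint_filter_filter d1
          · rw [← filter_union]; exact disjoint_filter_filter d2
      obtain ⟨t, ht0, ht1, hspl⟩ := hsplit
      obtain ⟨u, hu0, hu1, hxu⟩ : ∃ u : ℝ, 0 ≤ u ∧ u ≤ 1 ∧ (x : ℝ) / q = X / q + X / q + u := by
        have a1 : (2 * X : ℝ) ≤ x := by exact_mod_cast hx1
        have a2 : (x : ℝ) ≤ 2 * X + 1 := by exact_mod_cast hx2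
        refine ⟨((x : ℝ) - 2 * X) / q, by apply div_nonneg _ hq0.le; linarith, ?_, by ring⟩
        rw [div_le_one hq0]; linarith
      have h3 : |(((Ioc 0 x).filter (fun n : ℕ => ⌊f n⌋ % (q : ℤ) = v)).card : ℝ) - (x : ℝ) / q| ≤
          (3 * (q : ℝ) ^ (1 / τ) + (2 * X1 + 1) + K * (X : ℝ) ^ (1 - τ)) + C0 * (X : ℝ) ^ (1 - τ) + 1 := by
        rw [hspl, hxu]
        have a1 := abs_le.1 h1
        have a2 := abs_le.1 h2
        rw [abs_le]
        constructor <;> linarith [a1.1, a1.2, a2.1, a2.2]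
      refine h3.trans ?_
      have hXr1 : (1 : ℝ) ≤ X := by exact_mod_cast hXpos
      have h4 : 1 ≤ (X : ℝ) ^ (1 - τ) := Real.one_le_rpow hXr1 (by linarith)
      have h5 : (X : ℝ) ^ (1 - τ) * (4 / 3) ≤ (x : ℝ) ^ (1 - τ) := by
        have h6 : (2 * (X : ℝ)) ^ (1 - τ) ≤ (x : ℝ) ^ (1 - τ) :=
          Real.rpow_le_rpow (by positivity) (by exact_mod_cast hx1) (by linarith)
        rw [Real.mul_rpow (by norm_num) hXr.le] at h6
        have h7 : (4 / 3 : ℝ) ≤ 2 ^ (1 - τ) := by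
          have h8 : (2 : ℝ) ^ (1 / 2 : ℝ) ≤ 2 ^ (1 - τ) := Real.rpow_le_rpow_of_exponent_le (by norm_num) (by linarith)
          refine le_trans ?_ h8
          rw [← Real.sqrt_eq_rpow]
          apply Real.le_sqrt_of_sq_le
          norm_num
        calc (X : ℝ) ^ (1 - τ) * (4 / 3) ≤ (X : ℝ) ^ (1 - τ) * 2 ^ (1 - τ) := by gcongr
          _ = 2 ^ (1 - τ) * (X : ℝ) ^ (1 - τ) := by ring
          _ ≤ _ := h6
      have h6 : (K + C0 + 1) * (X : ℝ) ^ (1 - τ) ≤ K * (x : ℝ) ^ (1 - τ) := by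
        have h7 : K + C0 + 1 ≤ K * (4 / 3) := by rw [hK]; linarith
        calc (K + C0 + 1) * (X : ℝ) ^ (1 - τ) ≤ K * (4 / 3) * (X : ℝ) ^ (1 - τ) := by gcongr
          _ = K * ((X : ℝ) ^ (1 - τ) * (4 / 3)) := by ring
          _ ≤ _ := by gcongr
      nlinarith
  intro x q hx hq hqx v hv hvq
  have hxr : (1 : ℝ) ≤ x := by exact_mod_cast hx
  have hxp : (0 : ℝ) < x := by linarith
  refine (hind q hq v hv hvq x).trans ?_
  have h1 : (q : ℝ) ^ (1 / τ) ≤ (x : ℝ) ^ (1 - τ / 2) := by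
    calc (q : ℝ) ^ (1 / τ) ≤ ((x : ℝ) ^ (τ / 2)) ^ (1 / τ) := Real.rpow_le_rpow (Nat.cast_nonneg _) hqx (by positivity)
      _ = (x : ℝ) ^ (1 / 2 : ℝ) := by rw [← Real.rpow_mul hxp.le]; congr 1; field_simp
      _ ≤ _ := Real.rpow_le_rpow_of_exponent_le hxr (by linarith)
  have h2 : 1 ≤ (x : ℝ) ^ (1 - τ / 2) := Real.one_le_rpow hxr (by linarith)
  have h3 : (x : ℝ) ^ (1 - τ) ≤ (x : ℝ) ^ (1 - τ / 2) := Real.rpow_le_rpow_of_exponent_le hxr (by linarith)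
  have hKpos : 0 ≤ K := by rw [hK]; linarith
  have hX1r0 : (0 : ℝ) ≤ 2 * X1 + 1 := by positivity
  calc 3 * (q : ℝ) ^ (1 / τ) + (2 * X1 + 1) + K * (x : ℝ) ^ (1 - τ) ≤
      3 * (x : ℝ) ^ (1 - τ / 2) + (2 * X1 + 1) * (x : ℝ) ^ (1 - τ / 2) + K * (x : ℝ) ^ (1 - τ / 2) := by
        have h4 : (2 * (X1 : ℝ) + 1) * 1 ≤ (2 * X1 + 1) * (x : ℝ) ^ (1 - τ / 2) := mul_le_mul_of_nonneg_left h2 hX1r0
        have h5 : K * (x : ℝ) ^ (1 - τ) ≤ K * (x : ℝ) ^ (1 - τ / 2) := mul_le_mul_of_nonneg_left h3 hKpos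
        linarith
    _ = _ := by ring

end Pool.Agent.T2H58.DQ
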