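import Pool.Agent.T2H58.DQ.Mo
import Pool.Agent.T2H58.DQ.Eq

/-! Torsion in the class groups of the quadratic fields `ℚ(√D(n))`, for a sequence `D` which is equidistributed modulo
small `q`. -/

set_option autoImplicit false

namespace Pool.Agent.T2H58.DQ

open Finset NumberField
open scoped Nat.Prime
open Pool.Agent.R345.SS

/-- the number of the ideal classes killed by `ℓ` -/
noncomputable def tor (K : Type) [Field K] [NumberField K] (ℓ : ℕ) : ℝ :=
  (Nat.card {x : ClassGroup (𝓞 K) // x ^ ℓ = 1} : ℝ)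

/-- the odd primes up to `y` -/
noncomputable def OP (y : ℕ) : Finset ℕ := (Nat.primesLE y).filter (fun p => p ≠ 2)

theorem OP_card (y : ℕ) : (π y : ℝ) - 1 ≤ ((OP y).card : ℝ) ∧ ((OP y).card : ℝ) ≤ π y := by
  have h1 : (Nat.primesLE y).card = π y := Nat.primesLE_card_eq_primeCounting y
  constructor
  · have h2 : Nat.primesLE y ⊆ insert 2 (OP y) := by
      intro p hp
      rw [mem_insert]
      by_cases h : p = 2
      · exact Or.inl h
      · exact Or.inr (by unfold OP; rw [mem_filter]; exact ⟨hp, h⟩)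
    have h3 := (card_le_card h2).trans (card_insert_le _ _)
    rw [h1] at h3
    have h4 : (π y : ℝ) ≤ (OP y).card + 1 := by exact_mod_cast h3
    linarith
  · have h2 := card_filter_le (Nat.primesLE y) (fun p => p ≠ 2)
    rw [h1] at h2
    exact_mod_cast h2

theorem SJ_OP (n : ℤ) (y : ℕ) : |SJ n y| ≤ |∑ p ∈ OP y, J n p| + 1 := by
  unfold SJ OP
  rw [← sum_filter_add_sum_filter_not (Nat.primesLE y) (fun p => p ≠ 2)]
  refine (abs_add_le _ _).trans ?_
  have h1 : |∑ p ∈ (Nat.primesLE y).filter (fun p => ¬ p ≠ 2), J n p| ≤ 1 := by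
    refine (abs_sum_le_sum_abs _ _).trans ((sum_le_sum fun p _ => J_abs n p).trans ?_)
    rw [sum_const, nsmul_eq_mul, mul_one]
    have h2 : (Nat.primesLE y).filter (fun p => ¬ p ≠ 2) ⊆ {2} := by
      intro p hp
      rw [mem_filter] at hp
      rw [mem_singleton]
      exact not_not.1 hp.2
    have h3 := card_le_card h2
    rw [card_singleton] at h3
    exact_mod_cast h3
  linarith

/-- **Torsion along a sequence.** -/
theorem torsion_seq (m : ℕ) (hm : 1 ≤ m) : ∃ C : ℝ, 1 ≤ C ∧ ∀ (D : ℕ → ℤ) (x N : ℕ) (E Q Y : ℝ), 0 ≤ E → Equi D x Q E →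
    2 ≤ N → (∀ n ∈ Ioc 0 x, |D n| ≤ (N : ℤ)) → 0 < Y → Y ^ (2 * m) ≤ Q → Y ^ (3 * m) * E ≤ x →
    ∀ (ℓ : ℕ), 1 ≤ ℓ → ∀ (K : ℕ → Type) [∀ n, Field (K n)] [∀ n, NumberField (K n)] (S : Finset ℕ), S ⊆ Ioc 0 x →
      (∀ n ∈ S, Module.finrank ℚ (K n) = 2 ∧ ∃ α : K n, IntermediateField.adjoin ℚ {α} = ⊤ ∧ α ^ 2 = ((D n : ℤ) : K n)) →
      ∑ n ∈ S, tor (K n) ℓ ^ m ≤
        x * (C * ℓ ^ 2 * Real.log N ^ 3 * (√(4 * N) * max ((4 * (N : ℝ)) ^ (-(1 / (2 * (ℓ : ℝ))))) (1 / Y))) ^ m := by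
  classical
  obtain ⟨C₂, hC₂, hclass⟩ := class_quadratic
  obtain ⟨Y2, hY24, hpi⟩ := pi_facts 1 one_pos
  have hl2 : (0 : ℝ) < Real.log 2 := Real.log_pos (by norm_num)
  have hl2' := Real.log_two_gt_d9
  have hl2'' := Real.log_two_lt_d9
  obtain ⟨C₃, hC₃⟩ : ∃ C₃ : ℝ, C₃ = 30000 + Y2 / Real.log 2 ^ 2 + C₂ := ⟨_, rfl⟩
  have hY2p : (0 : ℝ) ≤ Y2 / Real.log 2 ^ 2 := by positivity
  obtain ⟨c₄, hc₄⟩ : ∃ c₄ : ℝ, c₄ = 2 * C₃ + 1 + 576 * ((m : ℝ) ^ (2 * m) + 1) := ⟨_, rfl⟩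
  have hm0 : (0 : ℝ) ≤ (m : ℝ) ^ (2 * m) := by positivity
  refine ⟨1200 * C₂ * (3 * c₄), by rw [hc₄, hC₃]; nlinarith, ?_⟩
  intro D x N E Q Y hE0 hEq hN hDN hY0 hYQ hYE ℓ hℓ K _ _ S hS hK
  have hNr : (2 : ℝ) ≤ N := by exact_mod_cast hN
  have hlN : Real.log 2 ≤ Real.log N := Real.log_le_log (by norm_num) hNr
  have hlN0 : 0 < Real.log N := by linarith
  have hlN1 : 1 ≤ 2 * Real.log N := by linarith
  have hℓr : (1 : ℝ) ≤ ℓ := by exact_mod_cast hℓ
  have h4 : (1 : ℝ) < 4 * N := by linarith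
  obtain ⟨P, hP⟩ : ∃ P : ℝ, P = √(4 * N) * max ((4 * (N : ℝ)) ^ (-(1 / (2 * (ℓ : ℝ))))) (1 / Y) := ⟨_, rfl⟩
  have hP0 : 0 < P := by
    rw [hP]
    have : 0 < max ((4 * (N : ℝ)) ^ (-(1 / (2 * (ℓ : ℝ))))) (1 / Y) := lt_max_of_lt_left (by positivity)
    positivity
  rw [← hP]
  obtain ⟨M, hM⟩ : ∃ M : ℝ, M = 1200 * C₂ * ℓ ^ 2 * P := ⟨_, rfl⟩
  have hM0 : 0 < M := by rw [hM]; positivity
  obtain ⟨thr, hthr⟩ : ∃ thr : ℝ, thr = C₃ * Real.log N ^ 2 := ⟨_, rfl⟩
  have hC₃1 : 30000 ≤ C₃ := by rw [hC₃]; linarith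
  have hlog2 : (0.69 : ℝ) ^ 2 ≤ Real.log N ^ 2 := pow_le_pow_left₀ (by norm_num) (by linarith) 2
  have hthr1 : 1 ≤ thr := by
    rw [hthr]
    nlinarith
  -- the exceptional sets
  obtain ⟨B, hB⟩ : ∃ B : ℕ → Finset ℕ, B = fun t => (Ioc 0 x).filter (fun n => ((OP (2 ^ t)).card : ℝ) / 2 ≤
    |∑ p ∈ OP (2 ^ t), J (D n) p|) := ⟨_, rfl⟩
  obtain ⟨T, hT⟩ : ∃ T, T = Nat.log 2 (4 * N) + 1 := ⟨_, rfl⟩
  obtain ⟨Gd, hGd⟩ : ∃ Gd : Finset ℕ, Gd = (range T).filter (fun t => thr ≤ (2 : ℝ) ^ t ∧ (2 : ℝ) ^ t ≤ Y) := ⟨_, rfl⟩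
  have hTN : (T : ℝ) ≤ 6 * Real.log N := by
    have h1 : ((Nat.log 2 (4 * N) : ℕ) : ℝ) * Real.log 2 ≤ Real.log (4 * N) := by
      have h2 := Nat.pow_log_le_self 2 (show 4 * N ≠ 0 by omega)
      have h3 : ((2 : ℝ) ^ (Nat.log 2 (4 * N))) ≤ 4 * N := by exact_mod_cast h2
      have h5 := Real.log_le_log (by positivity) h3
      rwa [Real.log_pow] at h5
    have h2 : Real.log (4 * N) ≤ 3 * Real.log N := by
      rw [Real.log_mul (by norm_num) (by linarith)]
      have : Real.log 4 = 2 * Real.log 2 := by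
        rw [show (4 : ℝ) = 2 ^ 2 by norm_num, Real.log_pow]; push_cast; ring
      linarith
    have h3 : ((Nat.log 2 (4 * N) : ℕ) : ℝ) ≤ 4.5 * Real.log N := by
      have h5 : ((Nat.log 2 (4 * N) : ℕ) : ℝ) * Real.log 2 ≤ 4.5 * Real.log N * Real.log 2 := by nlinarith
      exact le_of_mul_le_mul_right h5 hl2
    rw [hT]
    push_cast
    linarith
  have hBcard : ∀ t ∈ Gd, ((B t).card : ℝ) * (2 ^ t) ^ m ≤ ((m : ℝ) ^ (2 * m) + 1) * (48 * Real.log N) ^ m * x := by
    intro t ht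
    rw [hGd, mem_filter, mem_range] at ht
    obtain ⟨ht1, ht2, ht3⟩ := ht
    have hy4N : ((2 ^ t : ℕ) : ℝ) ≤ 4 * N := by
      have h1 : 2 ^ t ≤ 4 * N := by
        refine (Nat.pow_le_pow_right (by norm_num) (show t ≤ Nat.log 2 (4 * N) by omega)).trans ?_
        exact Nat.pow_log_le_self 2 (by omega)
      exact_mod_cast h1
    obtain ⟨y, hy⟩ : ∃ y : ℕ, y = 2 ^ t := ⟨_, rfl⟩
    have hyr : (y : ℝ) = 2 ^ t := by rw [hy]; push_cast; rfl
    rw [hB]
    simp only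
    rw [← hy, ← hyr]
    rw [← hy] at hy4N
    rw [← hyr] at ht2 ht3
    have hyY2 : Y2 ≤ y := by
      have h1 : (Y2 : ℝ) ≤ y := by
        refine le_trans ?_ ht2
        rw [hthr]
        calc (Y2 : ℝ) = Y2 / Real.log 2 ^ 2 * Real.log 2 ^ 2 := by field_simp
          _ ≤ C₃ * Real.log N ^ 2 := by
            apply mul_le_mul _ (pow_le_pow_left₀ hl2.le hlN 2) (by positivity) (by linarith)
            rw [hC₃]; linarith
      exact_mod_cast h1
    have hy4 : (4 : ℝ) ≤ y := by exact_mod_cast (hY24.trans hyY2)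
    have hy0 : (0 : ℝ) < y := by linarith
    have hly : 0 < Real.log y := Real.log_pos (by linarith)
    have hly3 : Real.log y ≤ 3 * Real.log N := by
      refine (Real.log_le_log hy0 hy4N).trans ?_
      rw [Real.log_mul (by norm_num) (by linarith)]
      have : Real.log 4 = 2 * Real.log 2 := by
        rw [show (4 : ℝ) = 2 ^ 2 by norm_num, Real.log_pow]; push_cast; ring
      linarith
    have hpi0 := (hpi y hyY2).1
    have hpi1 := pi_sqrt y (hY24.trans hyY2) hpi0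
    have hsq : 100 ≤ Real.sqrt y := by
      apply Real.le_sqrt_of_sq_le
      refine le_trans ?_ ht2
      rw [hthr]
      nlinarith
    have hOP := (OP_card y).1
    have hOP2 : (y : ℝ) / (12 * Real.log N) ≤ (OP y).card := by
      have h1 : (y : ℝ) / (2 * Real.log y) / 2 ≤ (OP y).card := by linarith
      refine le_trans ?_ h1
      rw [div_div]
      apply div_le_div_of_nonneg_left hy0.le (by positivity)
      linarith
    have hOPpos : 0 < ((OP y).card : ℝ) := lt_of_lt_of_le (by positivity) hOP2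
    have hne : (OP y).Nonempty := card_pos.1 (by exact_mod_cast hOPpos)
    have hyY1 : (1 : ℝ) ≤ y := by linarith
    have h1 := excep_seq m hm D x Q E hE0 hEq (OP y) y hne (by
      intro p hp
      unfold OP at hp
      rw [mem_filter, Nat.mem_primesLE] at hp
      exact ⟨hp.1.2, hp.2, by exact_mod_cast hp.1.1⟩)
      ((pow_le_pow_left₀ hy0.le ht3 _).trans hYQ)
      ((mul_le_mul_of_nonneg_right (pow_le_pow_left₀ hy0.le ht3 _) hE0).trans hYE)
      ((OP y).card / 2) (by positivity)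
    obtain ⟨b, hb⟩ : ∃ b : ℝ, b = (((Ioc 0 x).filter (fun n => ((OP y).card : ℝ) / 2 ≤ |∑ p ∈ OP y, J (D n) p|)).card : ℝ) := ⟨_, rfl⟩
    rw [← hb] at h1 ⊢
    have hb0 : 0 ≤ b := by rw [hb]; exact Nat.cast_nonneg _
    obtain ⟨o, ho⟩ : ∃ o : ℝ, o = ((OP y).card : ℝ) := ⟨_, rfl⟩
    rw [← ho] at h1 hOP2 hOPpos
    have hx0 : (0 : ℝ) ≤ x := Nat.cast_nonneg _
    -- b (o/2)^(2m) ≤ c o^m x
    have h2 : b * o ^ m ≤ ((m : ℝ) ^ (2 * m) + 1) * 4 ^ m * x := by
      have h3 : b * (o / 2) ^ (2 * m) = (b * o ^ m) * (o ^ m / 4 ^ m) := by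
        rw [div_pow, two_mul, pow_add, pow_add, show (4 : ℝ) = 2 * 2 by norm_num, mul_pow]
        field_simp
      rw [h3] at h1
      have h5 : (b * o ^ m) * (o ^ m / 4 ^ m) ≤ (((m : ℝ) ^ (2 * m) + 1) * 4 ^ m * x) * (o ^ m / 4 ^ m) := by
        refine h1.trans (le_of_eq ?_)
        field_simp
      exact le_of_mul_le_mul_right h5 (by positivity)
    calc b * (y : ℝ) ^ m ≤ b * (o * (12 * Real.log N)) ^ m := by
          rw [div_le_iff₀ (by positivity)] at hOP2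
          gcongr
      _ = (b * o ^ m) * (12 * Real.log N) ^ m := by rw [mul_pow]; ring
      _ ≤ (((m : ℝ) ^ (2 * m) + 1) * 4 ^ m * x) * (12 * Real.log N) ^ m := by gcongr
      _ = ((m : ℝ) ^ (2 * m) + 1) * (4 * (12 * Real.log N)) ^ m * x := by rw [mul_pow 4]; ring
      _ = _ := by ring_nf
  -- the bound for one field
  have hpt : ∀ n ∈ S, tor (K n) ℓ ^ m ≤ M ^ m * (thr ^ m + (Real.log N ^ 3) ^ m +
      ∑ t ∈ Gd, (if n ∈ B t then ((2 : ℝ) ^ t) ^ m else 0)) := by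
    intro n hn
    obtain ⟨hfin, α, hα, hsq⟩ := hK n hn
    have hDn := hDN n (hS hn)
    have hDn' : |D n| ≤ (N : ℤ) * (2 * N) := by
      refine hDn.trans ?_
      have : (1 : ℤ) ≤ N := by exact_mod_cast (by omega : 1 ≤ N)
      nlinarith
    obtain ⟨g1, g2⟩ := hclass N (D n) (K n) α ℓ hN hDn' hfin hα hsq hℓ
    change tor (K n) ℓ ≤ _ at g1
    have g2' : ∀ y : ℕ, C₂ * Real.log N ^ 2 ≤ y → (600 * (y : ℝ)) ^ (2 * ℓ) ≤ |(discr (K n) : ℝ)| →
      (π y : ℝ) / 8 ≤ (PS (D n) y).card → tor (K n) ℓ ≤ C₂ * ℓ ^ 2 * Real.log N ^ 3 * √|(discr (K n) : ℝ)| / y := g2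
    have hdisc := disc_quadratic (K n) α _ hfin hα hsq
    have hΔ2 : (2 : ℝ) < |(discr (K n) : ℝ)| := by
      have h1 : (2 : ℤ) < |discr (K n)| := abs_discr_gt_two (by omega)
      exact_mod_cast h1
    obtain ⟨Δ, hΔ⟩ : ∃ Δ : ℝ, Δ = |(discr (K n) : ℝ)| := ⟨_, rfl⟩
    rw [← hΔ] at g1 g2' hdisc hΔ2
    have hΔ0 : 0 < Δ := by linarith
    have hΔN : Δ ≤ 4 * N := by
      refine hdisc.trans ?_
      have h1 : |((D n : ℤ) : ℝ)| ≤ N := by exact_mod_cast hDn
      linarith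
    have hDn0 : D n ≠ 0 := by
      intro h0
      rw [h0] at hdisc
      simp only [Int.cast_zero, abs_zero, mul_zero] at hdisc
      linarith
    have hs : √Δ ≤ √(4 * N) := Real.sqrt_le_sqrt hΔN
    have hexp : √Δ * max (Δ ^ (-(1 / (2 * (ℓ : ℝ))))) (1 / Y) ≤ P := by
      rw [hP, mul_max_of_nonneg _ _ (Real.sqrt_nonneg _)]
      apply max_le
      · have h5 : √Δ * Δ ^ (-(1 / (2 * (ℓ : ℝ)))) ≤ √(4 * N) * (4 * (N : ℝ)) ^ (-(1 / (2 * (ℓ : ℝ)))) := by
          rw [Real.sqrt_eq_rpow, Real.sqrt_eq_rpow, ← Real.rpow_add hΔ0, ← Real.rpow_add (by positivity)]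
          apply Real.rpow_le_rpow hΔ0.le hΔN
          have : 1 / (2 * (ℓ : ℝ)) ≤ 1 / 2 := by
            apply one_div_le_one_div_of_le (by norm_num)
            linarith
          linarith
        exact h5.trans (mul_le_mul_of_nonneg_left (le_max_left _ _) (Real.sqrt_nonneg _))
      · exact mul_le_mul hs (le_max_right _ _) (by positivity) (Real.sqrt_nonneg _)
    obtain ⟨y₁, hy₁⟩ : ∃ y₁ : ℝ, y₁ = min (Δ ^ (1 / (2 * (ℓ : ℝ))) / 600) Y := ⟨_, rfl⟩
    have hy₁0 : 0 < y₁ := by rw [hy₁]; positivity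
    have hsP : √Δ ≤ 600 * y₁ * P := by
      have h1 : 1 ≤ 600 * y₁ * max (Δ ^ (-(1 / (2 * (ℓ : ℝ))))) (1 / Y) := by
        rcases min_choice (Δ ^ (1 / (2 * (ℓ : ℝ))) / 600) Y with h6 | h6
        · rw [hy₁, h6]
          calc (1 : ℝ) = 600 * (Δ ^ (1 / (2 * (ℓ : ℝ))) / 600) * Δ ^ (-(1 / (2 * (ℓ : ℝ)))) := by
                rw [Real.rpow_neg hΔ0.le]; field_simp
            _ ≤ _ := mul_le_mul_of_nonneg_left (le_max_left _ _) (by positivity)
        · rw [hy₁, h6]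
          calc (1 : ℝ) ≤ 600 * Y * (1 / Y) := by
                have : 600 * Y * (1 / Y) = 600 := by field_simp
                rw [this]; norm_num
            _ ≤ _ := mul_le_mul_of_nonneg_left (le_max_right _ _) (by positivity)
      calc √Δ = √Δ * 1 := (mul_one _).symm
        _ ≤ √Δ * (600 * y₁ * max (Δ ^ (-(1 / (2 * (ℓ : ℝ))))) (1 / Y)) := by gcongr
        _ = 600 * y₁ * (√Δ * max (Δ ^ (-(1 / (2 * (ℓ : ℝ))))) (1 / Y)) := by ring
        _ ≤ 600 * y₁ * P := by gcongr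
    have htor0 : 0 ≤ tor (K n) ℓ := Nat.cast_nonneg _
    have htor1 : tor (K n) ℓ ≤ M * (y₁ / 2) := by
      calc tor (K n) ℓ ≤ C₂ * ℓ ^ 2 * √Δ := g1
        _ ≤ C₂ * ℓ ^ 2 * (600 * y₁ * P) := by gcongr
        _ = M * (y₁ / 2) := by rw [hM]; ring
    have hsum0 : 0 ≤ ∑ t ∈ Gd, (if n ∈ B t then ((2 : ℝ) ^ t) ^ m else 0) := by
      apply sum_nonneg
      intro t _
      split_ifs
      · positivity
      · exact le_rfl
    have hthr0 : 0 ≤ thr ^ m := by positivity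
    have hl3 : 0 ≤ (Real.log N ^ 3) ^ m := by positivity
    have hMm : 0 < M ^ m := by positivity
    by_cases hsm : y₁ < 2 * thr
    · have h1 : tor (K n) ℓ ^ m ≤ (M * thr) ^ m := pow_le_pow_left₀ htor0 (htor1.trans (by gcongr; linarith)) m
      rw [mul_pow] at h1
      refine h1.trans (mul_le_mul_of_nonneg_left ?_ hMm.le)
      linarith
    push Not at hsm
    obtain ⟨z, hz⟩ : ∃ z, z = ⌊y₁⌋₊ := ⟨_, rfl⟩
    have hz1 : 1 ≤ z := by rw [hz]; exact Nat.le_floor (by push_cast; linarith)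
    have hzle : (z : ℝ) ≤ y₁ := by rw [hz]; exact Nat.floor_le hy₁0.le
    have hzlt : y₁ < z + 1 := by rw [hz]; exact Nat.lt_floor_add_one _
    obtain ⟨t, ht⟩ : ∃ t, t = Nat.log 2 z := ⟨_, rfl⟩
    have hyz : 2 ^ t ≤ z := by rw [ht]; exact Nat.pow_log_le_self 2 (by omega)
    have hzy : z + 1 ≤ 2 ^ (t + 1) := by rw [ht]; exact Nat.lt_pow_succ_log_self (by norm_num) z
    have hy1 : (2 : ℝ) ^ t ≤ y₁ := by
      have : ((2 ^ t : ℕ) : ℝ) ≤ z := by exact_mod_cast hyz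
      push_cast at this
      linarith
    have hy2 : y₁ ≤ 2 * (2 : ℝ) ^ t := by
      have h1 : ((z + 1 : ℕ) : ℝ) ≤ ((2 ^ (t + 1) : ℕ) : ℝ) := by exact_mod_cast hzy
      push_cast at h1
      rw [pow_succ] at h1
      linarith
    have hythr : thr ≤ (2 : ℝ) ^ t := by linarith
    by_cases hBt : n ∈ B t
    · -- exceptional
      have htG : t ∈ Gd := by
        rw [hGd, mem_filter, mem_range]
        refine ⟨?_, hythr, hy1.trans (by rw [hy₁]; exact min_le_right _ _)⟩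
        rw [hT]
        have h1 : (2 : ℝ) ^ t ≤ 4 * N := by
          refine hy1.trans ?_
          rw [hy₁]
          refine (min_le_left _ _).trans ?_
          have h2 : Δ ^ (1 / (2 * (ℓ : ℝ))) ≤ Δ ^ (1 : ℝ) := by
            apply Real.rpow_le_rpow_of_exponent_le (by linarith)
            rw [div_le_one (by positivity)]
            linarith
          rw [Real.rpow_one] at h2
          linarith
        have h2 : 2 ^ t ≤ 4 * N := by exact_mod_cast h1
        have h3 := Nat.le_log_of_pow_le (by norm_num) h2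
        omega
      have h1 : tor (K n) ℓ ^ m ≤ (M * 2 ^ t) ^ m := pow_le_pow_left₀ htor0 (htor1.trans (by gcongr; linarith)) m
      rw [mul_pow] at h1
      refine h1.trans (mul_le_mul_of_nonneg_left ?_ hMm.le)
      have h2 := single_le_sum (f := fun t => (if n ∈ B t then ((2 : ℝ) ^ t) ^ m else 0)) (s := Gd) (fun i _ => by
        show 0 ≤ (if n ∈ B i then ((2 : ℝ) ^ i) ^ m else 0)
        split_ifs
        · positivity
        · exact le_rfl) htG
      simp only [if_pos hBt] at h2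
      linarith
    · -- many split primes
      obtain ⟨y, hy⟩ : ∃ y : ℕ, y = 2 ^ t := ⟨_, rfl⟩
      have hyr : (y : ℝ) = 2 ^ t := by rw [hy]; push_cast; rfl
      rw [hB] at hBt
      simp only [mem_filter, not_and, not_le] at hBt
      have hBt' := hBt (hS hn)
      rw [← hy] at hBt'
      rw [← hyr] at hythr hy1 hy2
      have hyY2 : Y2 ≤ y := by
        have h1 : (Y2 : ℝ) ≤ y := by
          refine le_trans ?_ hythr
          rw [hthr]
          calc (Y2 : ℝ) = Y2 / Real.log 2 ^ 2 * Real.log 2 ^ 2 := by field_simp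
            _ ≤ C₃ * Real.log N ^ 2 := by
              apply mul_le_mul _ (pow_le_pow_left₀ hl2.le hlN 2) (by positivity) (by linarith)
              rw [hC₃]; linarith
        exact_mod_cast h1
      have hpi1 := pi_sqrt y (hY24.trans hyY2) (hpi y hyY2).1
      have hsqy : 130 * Real.log N ≤ Real.sqrt y := by
        apply Real.le_sqrt_of_sq_le
        refine le_trans ?_ hythr
        rw [hthr, mul_pow]
        refine mul_le_mul_of_nonneg_right ?_ (by positivity)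
        linarith
      have hy0 : (0 : ℝ) < y := by linarith
      have hPSc := PS_count (D n) hDn0 y
      have hlogD : Real.log ((D n).natAbs : ℝ) ≤ Real.log N := by
        apply Real.log_le_log
        · exact_mod_cast Int.natAbs_pos.2 hDn0
        · rw [Nat.cast_natAbs]
          exact_mod_cast hDn
      have hSJ := SJ_OP (D n) y
      have hOP := (OP_card y).2
      have hPS : (π y : ℝ) / 8 ≤ ((PS (D n) y).card : ℝ) := by linarith
      have hpow : (600 * (y : ℝ)) ^ (2 * ℓ) ≤ Δ := by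
        have h1 : 600 * (y : ℝ) ≤ Δ ^ (1 / (2 * (ℓ : ℝ))) := by
          have h2 : (y : ℝ) ≤ Δ ^ (1 / (2 * (ℓ : ℝ))) / 600 := by
            refine hy1.trans ?_
            rw [hy₁]; exact min_le_left _ _
          rw [le_div_iff₀ (by norm_num)] at h2
          linarith
        refine (pow_le_pow_left₀ (by positivity) h1 _).trans (le_of_eq ?_)
        rw [← Real.rpow_natCast, ← Real.rpow_mul hΔ0.le]
        push_cast
        rw [one_div, inv_mul_cancel₀ (by positivity), Real.rpow_one]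
      have h1 := g2' y (by
        refine le_trans ?_ hythr
        rw [hthr]
        refine mul_le_mul_of_nonneg_right ?_ (by positivity)
        rw [hC₃]; linarith) hpow hPS
      have h2 : tor (K n) ℓ ≤ M * Real.log N ^ 3 := by
        refine h1.trans ?_
        rw [div_le_iff₀ hy0]
        calc C₂ * ℓ ^ 2 * Real.log N ^ 3 * √Δ ≤ C₂ * ℓ ^ 2 * Real.log N ^ 3 * (600 * (2 * y) * P) := by
              have h3 : √Δ ≤ 600 * (2 * y) * P := hsP.trans (by gcongr)
              gcongr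
          _ = M * Real.log N ^ 3 * y := by rw [hM]; ring
      have h3 : tor (K n) ℓ ^ m ≤ (M * Real.log N ^ 3) ^ m := pow_le_pow_left₀ htor0 h2 m
      rw [mul_pow] at h3
      refine h3.trans (mul_le_mul_of_nonneg_left ?_ hMm.le)
      linarith
  -- summation
  have hScard : (S.card : ℝ) ≤ x := by
    have h1 := card_le_card hS
    rw [Nat.card_Ioc] at h1
    have h2 : S.card ≤ x := by omega
    exact_mod_cast h2
  have hx0 : (0 : ℝ) ≤ x := Nat.cast_nonneg _
  refine (sum_le_sum hpt).trans ?_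
  rw [← mul_sum, sum_add_distrib, sum_const, nsmul_eq_mul, sum_comm]
  have h5 : ∑ t ∈ Gd, ∑ n ∈ S, (if n ∈ B t then ((2 : ℝ) ^ t) ^ m else 0) ≤
      T * (((m : ℝ) ^ (2 * m) + 1) * (48 * Real.log N) ^ m * x) := by
    have h6 : ∀ t ∈ Gd, ∑ n ∈ S, (if n ∈ B t then ((2 : ℝ) ^ t) ^ m else 0) ≤
        ((m : ℝ) ^ (2 * m) + 1) * (48 * Real.log N) ^ m * x := by
      intro t ht
      refine le_trans ?_ (hBcard t ht)
      rw [← sum_filter, sum_const, nsmul_eq_mul]
      apply mul_le_mul_of_nonneg_right _ (by positivity)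
      have h7 : S.filter (fun n => n ∈ B t) ⊆ B t := by
        intro n hn
        exact (mem_filter.1 hn).2
      exact_mod_cast card_le_card h7
    refine (sum_le_sum h6).trans ?_
    rw [sum_const, nsmul_eq_mul]
    apply mul_le_mul_of_nonneg_right _ (by positivity)
    have h7 : Gd.card ≤ T := by
      rw [hGd]
      refine (card_filter_le _ _).trans ?_
      rw [card_range]
    exact_mod_cast h7
  have hbr : thr ^ m + (Real.log N ^ 3) ^ m + T * (((m : ℝ) ^ (2 * m) + 1) * (48 * Real.log N) ^ m) ≤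
      (3 * c₄ * Real.log N ^ 3) ^ m := by
    have hl3 : 0 < Real.log N ^ 3 := by positivity
    have hc₄1 : 1 ≤ c₄ := by rw [hc₄]; linarith
    have a1 : thr ^ m ≤ (c₄ * Real.log N ^ 3) ^ m := by
      apply pow_le_pow_left₀ (by linarith)
      rw [hthr]
      have h7 : Real.log N ^ 2 ≤ 2 * Real.log N ^ 3 := by
        have : Real.log N ^ 2 * 1 ≤ Real.log N ^ 2 * (2 * Real.log N) := by gcongr
        calc Real.log N ^ 2 = Real.log N ^ 2 * 1 := (mul_one _).symm
          _ ≤ _ := this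
          _ = _ := by ring
      calc C₃ * Real.log N ^ 2 ≤ C₃ * (2 * Real.log N ^ 3) := by gcongr
        _ = 2 * C₃ * Real.log N ^ 3 := by ring
        _ ≤ c₄ * Real.log N ^ 3 := by
          gcongr
          rw [hc₄]; linarith
    have a2 : (Real.log N ^ 3) ^ m ≤ (c₄ * Real.log N ^ 3) ^ m := by
      apply pow_le_pow_left₀ hl3.le
      exact le_mul_of_one_le_left hl3.le hc₄1
    have a3 : T * (((m : ℝ) ^ (2 * m) + 1) * (48 * Real.log N) ^ m) ≤ (c₄ * Real.log N ^ 3) ^ m := by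
      obtain ⟨a, ha⟩ : ∃ a : ℝ, a = 6 * Real.log N * ((m : ℝ) ^ (2 * m) + 1) := ⟨_, rfl⟩
      have ha1 : 1 ≤ a := by rw [ha]; nlinarith
      have h7 : (T : ℝ) * (((m : ℝ) ^ (2 * m) + 1) * (48 * Real.log N) ^ m) ≤ a * (48 * Real.log N) ^ m := by
        rw [ha]
        calc (T : ℝ) * (((m : ℝ) ^ (2 * m) + 1) * (48 * Real.log N) ^ m) ≤
            (6 * Real.log N) * (((m : ℝ) ^ (2 * m) + 1) * (48 * Real.log N) ^ m) := by gcongr
          _ = _ := by ring
      have h8 : a ≤ a ^ m := le_self_pow₀ ha1 (by omega)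
      have h9 : a * (48 * Real.log N) ^ m ≤ (a * (48 * Real.log N)) ^ m := by
        calc a * (48 * Real.log N) ^ m ≤ a ^ m * (48 * Real.log N) ^ m := by gcongr
          _ = _ := (mul_pow _ _ _).symm
      refine (h7.trans h9).trans (pow_le_pow_left₀ (by positivity) ?_ m)
      rw [ha]
      have h10 : Real.log N ^ 2 ≤ 2 * Real.log N ^ 3 := by
        have : Real.log N ^ 2 * 1 ≤ Real.log N ^ 2 * (2 * Real.log N) := by gcongr
        calc Real.log N ^ 2 = Real.log N ^ 2 * 1 := (mul_one _).symm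
          _ ≤ _ := this
          _ = _ := by ring
      calc 6 * Real.log N * ((m : ℝ) ^ (2 * m) + 1) * (48 * Real.log N) = 288 * ((m : ℝ) ^ (2 * m) + 1) * Real.log N ^ 2 := by ring
        _ ≤ 288 * ((m : ℝ) ^ (2 * m) + 1) * (2 * Real.log N ^ 3) := by gcongr
        _ = 576 * ((m : ℝ) ^ (2 * m) + 1) * Real.log N ^ 3 := by ring
        _ ≤ c₄ * Real.log N ^ 3 := by
          gcongr
          rw [hc₄]; linarith
    have a4 : 3 * (c₄ * Real.log N ^ 3) ^ m ≤ (3 * c₄ * Real.log N ^ 3) ^ m := by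
      have h7 : (3 : ℝ) ≤ 3 ^ m := le_self_pow₀ (by norm_num) (by omega)
      rw [mul_assoc, mul_pow 3]
      gcongr
    linarith
  have hMm : 0 < M ^ m := by positivity
  have hA0 : 0 ≤ thr ^ m + (Real.log N ^ 3) ^ m := by positivity
  calc M ^ m * ((S.card : ℝ) * (thr ^ m + (Real.log N ^ 3) ^ m) +
        ∑ t ∈ Gd, ∑ n ∈ S, (if n ∈ B t then ((2 : ℝ) ^ t) ^ m else 0))
      ≤ M ^ m * ((x : ℝ) * (thr ^ m + (Real.log N ^ 3) ^ m) +
        T * (((m : ℝ) ^ (2 * m) + 1) * (48 * Real.log N) ^ m * x)) := by gcongr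
    _ = M ^ m * x * (thr ^ m + (Real.log N ^ 3) ^ m + T * (((m : ℝ) ^ (2 * m) + 1) * (48 * Real.log N) ^ m)) := by ring
    _ ≤ M ^ m * x * (3 * c₄ * Real.log N ^ 3) ^ m := by gcongr
    _ = x * (M * (3 * c₄ * Real.log N ^ 3)) ^ m := by rw [mul_pow]; ring
    _ = _ := by
      congr 2
      rw [hM]; ring

end Pool.Agent.T2H58.DQ
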