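import Pool.Agent.R345.CT2

/-! Sums of Jacobi symbols along a sequence which is equidistributed modulo small `q`: few terms have a large sum. -/

set_option autoImplicit false

namespace Pool.Agent.T2H58.DQ

open Finset
open scoped Nat.Prime
open Pool.Agent.R345.SS

/-- `D 1, ..., D x` are equidistributed modulo every `q ≤ Q`, up to `E`. -/
def Equi (D : ℕ → ℤ) (x : ℕ) (Q E : ℝ) : Prop := ∀ q : ℕ, 1 ≤ q → (q : ℝ) ≤ Q → ∀ v : ℤ, 0 ≤ v → v < q →
  |(((Ioc 0 x).filter (fun n : ℕ => D n % (q : ℤ) = v)).card : ℝ) - (x : ℝ) / q| ≤ E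

theorem Equi.per {D : ℕ → ℤ} {x : ℕ} {Q E : ℝ} (h : Equi D x Q E) {q : ℕ} (hq : 1 ≤ q) (hqQ : (q : ℝ) ≤ Q) (F : ℤ → ℝ)
    (hF : ∀ z, F (z % q) = F z) (hF1 : ∀ z, |F z| ≤ 1) :
    |∑ n ∈ Ioc 0 x, F (D n) - (x : ℝ) / q * ∑ v ∈ range q, F (v : ℤ)| ≤ q * E := by
  classical
  have hq0 : (0 : ℤ) < q := by exact_mod_cast hq
  have h1 : ∑ n ∈ Ioc 0 x, F (D n) = ∑ v ∈ range q, F (v : ℤ) *
      (((Ioc 0 x).filter (fun n : ℕ => D n % (q : ℤ) = (v : ℤ))).card : ℝ) := by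
    rw [← sum_fiberwise_of_maps_to (s := Ioc 0 x) (t := range q) (g := fun n => (D n % (q : ℤ)).toNat) (f := fun n => F (D n))]
    · apply sum_congr rfl
      intro v hv
      rw [mem_range] at hv
      have h2 : (Ioc 0 x).filter (fun n => (D n % (q : ℤ)).toNat = v) = (Ioc 0 x).filter (fun n : ℕ => D n % (q : ℤ) = (v : ℤ)) := by
        apply filter_congr
        intro n _
        have h3 := Int.emod_nonneg (D n) hq0.ne'
        omega
      rw [h2, sum_congr rfl (g := fun _ => F (v : ℤ)), sum_const, nsmul_eq_mul, mul_comm]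
      intro n hn
      rw [mem_filter] at hn
      rw [← hF (D n), hn.2]
    · intro n _
      rw [mem_range]
      have h3 := Int.emod_nonneg (D n) hq0.ne'
      have h4 := Int.emod_lt_of_pos (D n) hq0
      omega
  rw [h1, mul_sum, ← sum_sub_distrib]
  refine (abs_sum_le_sum_abs _ _).trans ?_
  have h2 : ∀ v ∈ range q, |F (v : ℤ) * (((Ioc 0 x).filter (fun n : ℕ => D n % (q : ℤ) = (v : ℤ))).card : ℝ) -
      (x : ℝ) / q * F (v : ℤ)| ≤ E := by
    intro v hv
    rw [mem_range] at hv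
    have e : F (v : ℤ) * (((Ioc 0 x).filter (fun n : ℕ => D n % (q : ℤ) = (v : ℤ))).card : ℝ) - (x : ℝ) / q * F (v : ℤ) =
        F (v : ℤ) * ((((Ioc 0 x).filter (fun n : ℕ => D n % (q : ℤ) = (v : ℤ))).card : ℝ) - (x : ℝ) / q) := by ring
    rw [e, abs_mul]
    have h3 := h q hq hqQ (v : ℤ) (by omega) (by exact_mod_cast hv)
    exact (mul_le_of_le_one_left (abs_nonneg _) (hF1 _)).trans h3
  refine (sum_le_sum h2).trans ?_
  rw [sum_const, card_range, nsmul_eq_mul]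

theorem J_odd (n : ℤ) (p : ℕ) {m : ℕ} (hm : Odd m) : J n p ^ m = J n p := by
  obtain ⟨j, rfl⟩ := hm
  unfold J
  rcases jacobiSym.trichotomy n p with h | h | h <;> rw [h] <;> simp [pow_succ, pow_mul]

theorem J_sum (p : ℕ) (hp : p.Prime) (h2 : p ≠ 2) : ∑ x ∈ range p, J (x : ℤ) p = 0 := by
  have : Fact p.Prime := ⟨hp⟩
  have h1 : ∀ x ∈ range p, J (x : ℤ) p = ((quadraticChar (ZMod p) (x : ZMod p) : ℤ) : ℝ) := by
    intro x _
    unfold J
    rw [← jacobiSym.legendreSym.to_jacobiSym]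
    unfold legendreSym
    simp
  rw [sum_congr rfl h1, sum_zmod p (fun z => ((quadraticChar (ZMod p) z : ℤ) : ℝ))]
  have h3 := quadraticChar_sum_zero (F := ZMod p) (by rw [ZMod.ringChar_zmod_n]; exact h2)
  exact_mod_cast h3

/-- One tuple of primes. -/
theorem tuple {D : ℕ → ℤ} {x : ℕ} {Q E : ℝ} (h : Equi D x Q E) {m : ℕ} (τ : Fin m → ℕ) {y : ℝ} (hy : 1 ≤ y)
    (hτ : ∀ i, (τ i).Prime ∧ τ i ≠ 2 ∧ (τ i : ℝ) ≤ y) (hyQ : y ^ m ≤ Q) (hE : 0 ≤ E) (p : ℕ)
    (hp : Odd ((univ : Finset (Fin m)).filter (fun i => τ i = p)).card) :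
    |∑ n ∈ Ioc 0 x, ∏ i, J (D n) (τ i)| ≤ y ^ m * E := by
  classical
  set T := (univ : Finset (Fin m)).image τ with hT
  have hTp : ∀ p ∈ T, p.Prime := by
    intro p hp
    obtain ⟨i, -, rfl⟩ := mem_image.1 hp
    exact (hτ i).1
  obtain ⟨q, hq⟩ : ∃ q, q = ∏ p ∈ T, p := ⟨_, rfl⟩
  have hq1 : 1 ≤ q := by
    rw [hq]; exact Nat.one_le_iff_ne_zero.2 (prod_ne hTp)
  have hqy : (q : ℝ) ≤ y ^ m := by
    rw [hq]
    push_cast
    have h1 : ∏ p ∈ T, (p : ℝ) ≤ ∏ p ∈ T, y := by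
      apply prod_le_prod (fun _ _ => Nat.cast_nonneg _)
      intro p hp
      obtain ⟨i, -, rfl⟩ := mem_image.1 hp
      exact (hτ i).2.2
    rw [prod_const] at h1
    refine h1.trans (pow_le_pow_right₀ hy ?_)
    exact card_image_le.trans (by simp)
  have hF : ∀ z : ℤ, (∏ i, J (z % q) (τ i)) = ∏ i, J z (τ i) := by
    intro z
    apply prod_congr rfl
    intro i _
    apply J_congr
    have hd : ((τ i : ℕ) : ℤ) ∣ (q : ℤ) := by
      rw [hq]
      exact_mod_cast dvd_prod_of_mem (fun p => p) (mem_image_of_mem τ (mem_univ i))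
    exact Int.emod_emod_of_dvd z hd
  have hF1 : ∀ z : ℤ, |∏ i, J z (τ i)| ≤ 1 := by
    intro z
    rw [abs_prod]
    exact prod_le_one (fun _ _ => abs_nonneg _) fun i _ => J_abs _ _
  have h1 := h.per hq1 (hqy.trans hyQ) (fun z => ∏ i, J z (τ i)) hF hF1
  have h2 : ∑ v ∈ range q, ∏ i, J (v : ℤ) (τ i) = 0 := by
    have h3 : ∀ v ∈ range q, ∏ i, J (v : ℤ) (τ i) =
        ∏ p ∈ T, (fun (p x : ℕ) => J (x : ℤ) p ^ ((univ : Finset (Fin m)).filter (fun i => τ i = p)).card) p v := by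
      intro v _
      rw [prod_comp (fun p => J (v : ℤ) p) τ]
    rw [sum_congr rfl h3, hq, crt_prod T hTp _ (by
      intro p _ x
      show J _ _ ^ _ = J _ _ ^ _
      congr 1
      apply J_congr
      push_cast
      exact Int.emod_emod_of_dvd _ (dvd_refl _))]
    have hpT : p ∈ T := by
      by_contra hcon
      have h4 : (univ : Finset (Fin m)).filter (fun i => τ i = p) = ∅ := by
        apply filter_eq_empty_iff.2
        intro i _ h5
        exact hcon (h5 ▸ mem_image_of_mem τ (mem_univ i))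
      rw [h4, card_empty] at hp
      exact absurd hp (by decide)
    apply prod_eq_zero hpT
    obtain ⟨i, -, hi⟩ := mem_image.1 hpT
    have h5 : ∀ x ∈ range p, (fun (p x : ℕ) => J (x : ℤ) p ^ ((univ : Finset (Fin m)).filter (fun i => τ i = p)).card) p x = J (x : ℤ) p :=
      fun x _ => J_odd _ _ hp
    rw [sum_congr rfl h5]
    exact J_sum p (hi ▸ (hτ i).1) (hi ▸ (hτ i).2.1)
  rw [h2, mul_zero, sub_zero] at h1
  exact h1.trans (mul_le_mul_of_nonneg_right hqy hE)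

/-- The tuples in which all multiplicities are even. -/
theorem even_tuples (k : ℕ) (hk : 1 ≤ k) (P : Finset ℕ) (S : Finset (Fin (2 * k) → ℕ))
    (hS : ∀ τ ∈ S, (∀ i, τ i ∈ P) ∧ ∀ p, Even ((univ : Finset (Fin (2 * k))).filter (fun i => τ i = p)).card) :
    (S.card : ℝ) ≤ (k : ℝ) ^ (2 * k) * (P.card : ℝ) ^ k := by
  classical
  have h1 : S ⊆ ((Fintype.piFinset (fun _ : Fin (2 * k) => (univ : Finset (Fin k)))) ×ˢ
      (Fintype.piFinset (fun _ : Fin k => P))).image (fun w => w.2 ∘ w.1) := by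
    intro τ hτ
    obtain ⟨h1, h2⟩ := hS τ hτ
    set T := (univ : Finset (Fin (2 * k))).image τ with hT
    have hTk : T.card ≤ k := by
      have h3 : (univ : Finset (Fin (2 * k))).card = ∑ p ∈ T, ((univ : Finset (Fin (2 * k))).filter (fun i => τ i = p)).card :=
        card_eq_sum_card_image τ univ
      have h4 : ∑ p ∈ T, 2 ≤ ∑ p ∈ T, ((univ : Finset (Fin (2 * k))).filter (fun i => τ i = p)).card := by
        apply sum_le_sum
        intro p hp
        obtain ⟨i, -, hi⟩ := mem_image.1 hp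
        have h5 : 0 < ((univ : Finset (Fin (2 * k))).filter (fun i => τ i = p)).card :=
          card_pos.2 ⟨i, by rw [mem_filter]; exact ⟨mem_univ _, hi⟩⟩
        obtain ⟨j, hj⟩ := h2 p
        omega
      rw [← h3, sum_const, smul_eq_mul, card_univ, Fintype.card_fin] at h4
      omega
    have i0 : Fin (2 * k) := ⟨0, by omega⟩
    obtain ⟨e⟩ : Nonempty (T ≃ Fin T.card) := ⟨T.equivFin⟩
    obtain ⟨g, hg⟩ : ∃ g : Fin k → ℕ, g = fun j : Fin k => if hj : (j : ℕ) < T.card then ((e.symm ⟨j, hj⟩ : T) : ℕ) else τ i0 := ⟨_, rfl⟩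
    have hgP : ∀ j, g j ∈ P := by
      intro j
      rw [hg]
      simp only
      split_ifs with hj
      · have h3 := (e.symm ⟨j, hj⟩).2
        obtain ⟨i, -, hi⟩ := mem_image.1 h3
        rw [← hi]; exact h1 i
      · exact h1 i0
    have hsur : ∀ i, ∃ j, g j = τ i := by
      intro i
      have hi : τ i ∈ T := mem_image_of_mem τ (mem_univ i)
      refine ⟨⟨e ⟨τ i, hi⟩, (e ⟨τ i, hi⟩).2.trans_le hTk⟩, ?_⟩
      rw [hg]
      simp
    choose w hw using hsur
    rw [mem_image]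
    refine ⟨(w, g), ?_, ?_⟩
    · rw [mem_product, Fintype.mem_piFinset, Fintype.mem_piFinset]
      exact ⟨fun _ => mem_univ _, hgP⟩
    · funext i
      exact hw i
  have h2 := (card_le_card h1).trans card_image_le
  rw [card_product, Fintype.card_piFinset, Fintype.card_piFinset, prod_const, prod_const, card_univ, card_univ,
    Fintype.card_fin, Fintype.card_fin] at h2
  exact_mod_cast h2

/-- Few terms of the sequence have a large sum of Jacobi symbols. -/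
theorem excep_seq (k : ℕ) (hk : 1 ≤ k) (D : ℕ → ℤ) (x : ℕ) (Q E : ℝ) (hE : 0 ≤ E) (h : Equi D x Q E)
    (P : Finset ℕ) (y : ℝ) (hne : P.Nonempty) (hP : ∀ p ∈ P, p.Prime ∧ p ≠ 2 ∧ (p : ℝ) ≤ y)
    (hyQ : y ^ (2 * k) ≤ Q) (hyE : y ^ (3 * k) * E ≤ x) (V : ℝ) (hV : 0 ≤ V) :
    (((Ioc 0 x).filter (fun n => V ≤ |∑ p ∈ P, J (D n) p|)).card : ℝ) * V ^ (2 * k) ≤
      ((k : ℝ) ^ (2 * k) + 1) * (P.card : ℝ) ^ k * x := by
  classical
  have hPy : (P.card : ℝ) ≤ y := card_le_y P y hP hne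
  have hP1 : (1 : ℝ) ≤ P.card := by exact_mod_cast hne.card_pos
  have hy1 : 1 ≤ y := hP1.trans hPy
  have h1 : (((Ioc 0 x).filter (fun n => V ≤ |∑ p ∈ P, J (D n) p|)).card : ℝ) * V ^ (2 * k) ≤
      ∑ n ∈ Ioc 0 x, (∑ p ∈ P, J (D n) p) ^ (2 * k) := by
    calc (((Ioc 0 x).filter (fun n => V ≤ |∑ p ∈ P, J (D n) p|)).card : ℝ) * V ^ (2 * k)
        = ∑ n ∈ (Ioc 0 x).filter (fun n => V ≤ |∑ p ∈ P, J (D n) p|), V ^ (2 * k) := by rw [sum_const, nsmul_eq_mul]
      _ ≤ ∑ n ∈ (Ioc 0 x).filter (fun n => V ≤ |∑ p ∈ P, J (D n) p|), (∑ p ∈ P, J (D n) p) ^ (2 * k) := by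
          apply sum_le_sum
          intro n hn
          have h2 := (mem_filter.1 hn).2
          rw [← Even.pow_abs (show Even (2 * k) from even_two_mul k) (∑ p ∈ P, J (D n) p)]
          exact pow_le_pow_left₀ hV h2 _
      _ ≤ _ := sum_le_sum_of_subset_of_nonneg (filter_subset _ _) fun n _ _ =>
          Even.pow_nonneg (even_two_mul k) _
  refine h1.trans ?_
  have h2 : ∑ n ∈ Ioc 0 x, (∑ p ∈ P, J (D n) p) ^ (2 * k) =
      ∑ τ ∈ Fintype.piFinset (fun _ : Fin (2 * k) => P), ∑ n ∈ Ioc 0 x, ∏ i, J (D n) (τ i) := by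
    rw [sum_comm]
    apply sum_congr rfl
    intro n _
    have h3 := prod_univ_sum (fun _ : Fin (2 * k) => P) (fun _ p => J (D n) p)
    rw [← h3, prod_const, card_univ, Fintype.card_fin]
  rw [h2]
  set Ev := (Fintype.piFinset (fun _ : Fin (2 * k) => P)).filter
    (fun τ => ∀ p, Even ((univ : Finset (Fin (2 * k))).filter (fun i => τ i = p)).card) with hEv
  have hx0 : (0 : ℝ) ≤ x := Nat.cast_nonneg _
  have hterm : ∀ τ ∈ Fintype.piFinset (fun _ : Fin (2 * k) => P), ∑ n ∈ Ioc 0 x, ∏ i, J (D n) (τ i) ≤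
      (if ∀ p, Even ((univ : Finset (Fin (2 * k))).filter (fun i => τ i = p)).card then (x : ℝ) else 0) + y ^ (2 * k) * E := by
    intro τ hτ
    rw [Fintype.mem_piFinset] at hτ
    have hE0 : 0 ≤ y ^ (2 * k) * E := by positivity
    split_ifs with hev
    · have h3 : ∑ n ∈ Ioc 0 x, ∏ i, J (D n) (τ i) ≤ ∑ n ∈ Ioc 0 x, (1 : ℝ) := by
        apply sum_le_sum
        intro n _
        refine (le_abs_self _).trans ?_
        rw [abs_prod]
        exact prod_le_one (fun _ _ => abs_nonneg _) fun i _ => J_abs _ _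
      rw [sum_const, Nat.card_Ioc, nsmul_eq_mul, mul_one] at h3
      have h4 : ((x - 0 : ℕ) : ℝ) = x := by simp
      rw [h4] at h3
      linarith
    · push Not at hev
      obtain ⟨p, hp⟩ := hev
      have h3 := tuple h τ hy1 (fun i => hP _ (hτ i)) hyQ hE p (Nat.not_even_iff_odd.1 hp)
      have h4 := le_abs_self (∑ n ∈ Ioc 0 x, ∏ i, J (D n) (τ i))
      linarith
  refine (sum_le_sum hterm).trans ?_
  rw [sum_add_distrib, ← sum_filter, ← hEv, sum_const, sum_const, nsmul_eq_mul, nsmul_eq_mul, Fintype.card_piFinset, prod_const,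
    card_univ, Fintype.card_fin]
  have h3 := even_tuples k hk P Ev (by
    intro τ hτ
    rw [hEv, mem_filter, Fintype.mem_piFinset] at hτ
    exact hτ)
  have h4 : ((P.card ^ (2 * k) : ℕ) : ℝ) * (y ^ (2 * k) * E) ≤ (P.card : ℝ) ^ k * x := by
    push_cast
    calc (P.card : ℝ) ^ (2 * k) * (y ^ (2 * k) * E) = (P.card : ℝ) ^ k * ((P.card : ℝ) ^ k * y ^ (2 * k) * E) := by
          rw [two_mul, pow_add]; ring
      _ ≤ (P.card : ℝ) ^ k * (y ^ k * y ^ (2 * k) * E) := by gcongr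
      _ = (P.card : ℝ) ^ k * (y ^ (3 * k) * E) := by rw [← pow_add]; congr 3; ring
      _ ≤ (P.card : ℝ) ^ k * x := by gcongr
  calc (Ev.card : ℝ) * x + ((P.card ^ (2 * k) : ℕ) : ℝ) * (y ^ (2 * k) * E)
      ≤ (k : ℝ) ^ (2 * k) * (P.card : ℝ) ^ k * x + (P.card : ℝ) ^ k * x := by gcongr
    _ = _ := by ring

end Pool.Agent.T2H58.DQ
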