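import Pool.Agent.R418.GE.B
import Pool.Agent.T2H58.DQ.Mo

/-! Sums over the primes of functions of the residues of a sequence which is equidistributed modulo small `q`. -/

set_option autoImplicit false

namespace Pool.Agent.T2H58.DQ

open Finset Pool.Agent.TH869.EVF Pool.Agent.R418.GE

/-- the residue modulo `p`, a natural number -/
def res (z : ℤ) (p : ℕ) : ℕ := (z % (p : ℤ)).toNat

theorem res_mod {z : ℤ} {p q : ℕ} (hd : p ∣ q) : res (z % (q : ℤ)) p = res z p := by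
  unfold res
  rw [Int.emod_emod_of_dvd z (by exact_mod_cast hd)]

theorem per_res {F : ℕ → ℝ} {p : ℕ} (hF : Per F p) (hp : 0 < p) (n : ℕ) : F (res (n : ℤ) p) = F n := by
  unfold res
  have h1 : ((n : ℤ) % (p : ℤ)).toNat = n % p := by omega
  rw [h1]
  have h2 : ∀ a b : ℕ, F (b + a * p) = F b := by
    intro a b
    induction a with
    | zero => simp
    | succ a ih => rw [← ih, Nat.succ_mul, ← add_assoc]; exact hF _
  have h3 := h2 (n / p) (n % p)
  rw [← h3]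
  congr 1
  have := Nat.div_add_mod n p
  rw [mul_comm] at this
  omega

/-- even moments along a sequence -/
theorem moment_seq (P : Finset ℕ) (x : ℕ) (hP : ∀ p ∈ P, p.Prime ∧ p ≤ x) (h : ℕ → ℕ → ℝ)
    (hper : ∀ p ∈ P, Per (h p) p) (h1 : ∀ p n, |h p n| ≤ 1)
    (h0 : ∀ p ∈ P, ∑ n ∈ range p, h p n = 0) (V : ℝ) (hV1 : 1 ≤ V)
    (hV : ∑ p ∈ P, (∑ n ∈ range p, h p n ^ 2) / p ≤ V) (k N : ℕ) (D : ℕ → ℤ) (Q₀ E : ℝ) (hE : 0 ≤ E)
    (hEq : Equi D N Q₀ E) (hQ₀ : (x : ℝ) ^ (2 * k) ≤ Q₀) (hQ1 : 1 ≤ Q₀) (hN : (x : ℝ) ^ (4 * k) * E ≤ N)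
    (hN0 : E ≤ N) :
    ∑ n ∈ Ioc 0 N, (∑ p ∈ P, h p (res (D n) p)) ^ (2 * k) ≤
      N * (((2 * k).factorial * (2 * Real.exp 1) + 2) * V ^ k) := by
  classical
  obtain ⟨M, hM⟩ : ∃ M : ℕ, M = ∏ p ∈ P, p := ⟨_, rfl⟩
  have hM0 : 0 < M := by rw [hM]; exact prod_pos fun p hp => (hP p hp).1.pos
  have hMr : (0 : ℝ) < M := by exact_mod_cast hM0
  have hfull := full_moment P (fun p hp => (hP p hp).1) h hper h1 h0 V hV1 hV k
  rw [← hM] at hfull
  have hexpand : ∀ L : ℕ, ∑ n ∈ range L, (∑ p ∈ P, h p n) ^ (2 * k) =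
      ∑ c ∈ Fintype.piFinset (fun _ : Fin (2 * k) => P), ∑ n ∈ range L, ∏ i, h (c i) n := by
    intro L
    rw [sum_comm]
    refine sum_congr rfl fun n _ => ?_
    rw [sum_pow']
  have hexpand' : ∑ n ∈ Ioc 0 N, (∑ p ∈ P, h p (res (D n) p)) ^ (2 * k) =
      ∑ c ∈ Fintype.piFinset (fun _ : Fin (2 * k) => P), ∑ n ∈ Ioc 0 N, ∏ i, h (c i) (res (D n) (c i)) := by
    rw [sum_comm]
    refine sum_congr rfl fun n _ => ?_
    rw [sum_pow']
  have hxk : (1 : ℝ) ≤ (x : ℝ) ^ (2 * k) ∨ 2 * k = 0 ∨ P = ∅ := by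
    rcases P.eq_empty_or_nonempty with h2 | ⟨p, hp⟩
    · exact Or.inr (Or.inr h2)
    · left
      have h3 := hP p hp
      have : 1 ≤ x := h3.1.pos.trans_le h3.2
      exact one_le_pow₀ (by exact_mod_cast this)
  have hterm : ∀ c ∈ Fintype.piFinset (fun _ : Fin (2 * k) => P),
      ∑ n ∈ Ioc 0 N, ∏ i, h (c i) (res (D n) (c i)) ≤ (N / M : ℝ) * ∑ n ∈ range M, ∏ i, h (c i) n +
        max 1 ((x : ℝ) ^ (2 * k)) * E := by
    intro c hc
    rw [Fintype.mem_piFinset] at hc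
    obtain ⟨Q, hQ⟩ : ∃ Q : ℕ, Q = ∏ p ∈ univ.image c, p := ⟨_, rfl⟩
    have himg : univ.image c ⊆ P := by
      intro p hp
      rw [mem_image] at hp
      obtain ⟨i, _, rfl⟩ := hp
      exact hc i
    have hQ0 : 0 < Q := by rw [hQ]; exact prod_pos fun p hp => (hP p (himg hp)).1.pos
    have hQr : (0 : ℝ) < Q := by exact_mod_cast hQ0
    have hQM : Q ∣ M := by rw [hQ, hM]; exact prod_dvd_prod_of_subset _ _ _ himg
    have hQx : Q ≤ x ^ (2 * k) := by
      rcases Nat.eq_zero_or_pos (2 * k) with hk0 | hk0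
      · rw [hQ]
        have : univ.image c = ∅ := by
          rw [image_eq_empty, univ_eq_empty_iff]
          rw [hk0]
          infer_instance
        rw [this, prod_empty, hk0, pow_zero]
      · have hx1 : 1 ≤ x := by
          have h2 := hP (c ⟨0, hk0⟩) (hc ⟨0, hk0⟩)
          exact h2.1.pos.trans_le h2.2
        calc Q ≤ ∏ p ∈ univ.image c, x := by
              rw [hQ]
              exact prod_le_prod' fun p hp => (hP p (himg hp)).2
          _ = x ^ (univ.image c).card := prod_const _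
          _ ≤ x ^ (2 * k) := Nat.pow_le_pow_right hx1 (by
              have := card_image_le (s := univ) (f := c)
              rwa [card_univ, Fintype.card_fin] at this)
    have hQx' : (Q : ℝ) ≤ (x : ℝ) ^ (2 * k) := by exact_mod_cast hQx
    have hci : ∀ i, c i ∣ Q := by
      intro i
      rw [hQ]
      exact dvd_prod_of_mem _ (mem_image_of_mem c (mem_univ i))
    have h3 := hEq.per (q := Q) hQ0 (hQx'.trans hQ₀) (fun z => ∏ i, h (c i) (res z (c i)))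
      (fun z => prod_congr rfl fun i _ => by rw [res_mod (hci i)])
      (fun z => by
        rw [abs_prod]
        exact prod_le_one (fun i _ => abs_nonneg _) fun i _ => h1 _ _)
    have h4 : ∑ v ∈ range Q, ∏ i, h (c i) (res (v : ℤ) (c i)) = ∑ v ∈ range Q, ∏ i, h (c i) v := by
      apply sum_congr rfl
      intro v _
      apply prod_congr rfl
      intro i _
      exact per_res (hper (c i) (hc i)) (hP _ (hc i)).1.pos v
    rw [h4] at h3
    have hper' : Per (fun n => ∏ i, h (c i) n) Q := by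
      intro n
      refine prod_congr rfl fun i _ => ?_
      exact ((hper (c i) (hc i)).of_dvd (hci i)) n
    have h5 : (N : ℝ) / Q * ∑ v ∈ range Q, ∏ i, h (c i) v = (N / M : ℝ) * ∑ n ∈ range M, ∏ i, h (c i) n := by
      obtain ⟨w, hw⟩ := hQM
      have hw0 : 0 < w := by
        rcases Nat.eq_zero_or_pos w with h0 | h0
        · rw [hw, h0, mul_zero] at hM0
          exact absurd hM0 (lt_irrefl 0)
        · exact h0
      have hwr : (0 : ℝ) < w := by exact_mod_cast hw0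
      rw [hw, mul_comm Q w, sum_range_mul hper']
      push_cast
      field_simp
    rw [h5] at h3
    have h6 := (abs_le.1 h3).2
    have h7 : (Q : ℝ) * E ≤ max 1 ((x : ℝ) ^ (2 * k)) * E :=
      mul_le_mul_of_nonneg_right (hQx'.trans (le_max_right _ _)) hE
    linarith
  rw [hexpand']
  refine (sum_le_sum hterm).trans ?_
  rw [sum_add_distrib, ← mul_sum, ← hexpand M, sum_const, Fintype.card_piFinset_const,
    nsmul_eq_mul]
  have hNr : (0 : ℝ) ≤ N := Nat.cast_nonneg N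
  have h5 : (N / M : ℝ) * ∑ n ∈ range M, (∑ p ∈ P, h p n) ^ (2 * k) ≤
      N * ((2 * k).factorial * (2 * Real.exp 1) * V ^ k) := by
    calc (N / M : ℝ) * ∑ n ∈ range M, (∑ p ∈ P, h p n) ^ (2 * k) ≤
        (N / M : ℝ) * (M * ((2 * k).factorial * (2 * Real.exp 1) * V ^ k)) :=
          mul_le_mul_of_nonneg_left hfull (by positivity)
      _ = _ := by field_simp
  have hPc : P.card ≤ x := by
    have h6 : P ⊆ Icc 1 x := by
      intro p hp
      rw [mem_Icc]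
      exact ⟨(hP p hp).1.pos, (hP p hp).2⟩
    have := card_le_card h6
    rwa [Nat.card_Icc, Nat.add_sub_cancel] at this
  have h7 : ((P.card ^ (2 * k) : ℕ) : ℝ) * (max 1 ((x : ℝ) ^ (2 * k)) * E) ≤ N * (2 * V ^ k) := by
    have h10 : (1 : ℝ) ≤ V ^ k := one_le_pow₀ hV1
    have h11 : ((P.card ^ (2 * k) : ℕ) : ℝ) * (max 1 ((x : ℝ) ^ (2 * k)) * E) ≤ N := by
      rcases hxk with hx1 | hk0 | hP0
      · rw [max_eq_right hx1]
        have h8 : ((P.card ^ (2 * k) : ℕ) : ℝ) ≤ (x : ℝ) ^ (2 * k) := by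
          push_cast
          exact pow_le_pow_left₀ (Nat.cast_nonneg _) (by exact_mod_cast hPc) _
        calc ((P.card ^ (2 * k) : ℕ) : ℝ) * ((x : ℝ) ^ (2 * k) * E)
            ≤ (x : ℝ) ^ (2 * k) * ((x : ℝ) ^ (2 * k) * E) :=
              mul_le_mul_of_nonneg_right h8 (by positivity)
          _ = (x : ℝ) ^ (4 * k) * E := by rw [← mul_assoc, ← pow_add]; congr 2; ring
          _ ≤ N := hN
      · rw [hk0]
        simpa using hN0
      · rw [hP0]
        rcases Nat.eq_zero_or_pos (2 * k) with hk0 | hk0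
        · rw [hk0]
          simpa using hN0
        · rw [card_empty, zero_pow hk0.ne']
          simpa using hNr
    calc _ ≤ (N : ℝ) := h11
      _ ≤ N * (2 * V ^ k) := le_mul_of_one_le_right hNr (by linarith)
  calc _ ≤ N * ((2 * k).factorial * (2 * Real.exp 1) * V ^ k) + N * (2 * V ^ k) :=
        add_le_add h5 h7
    _ = _ := by ring

/-- a sum over the primes -/
noncomputable def cntz (g : ℕ → ℕ → ℝ) (x : ℕ) (z : ℤ) : ℝ := ∑ p ∈ pr x, g p (res z p)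

theorem markov_seq (g : ℕ → ℕ → ℝ) (hg : Sys g) (δ : ℝ) (k x N : ℕ) (hx : 1 ≤ x) (D : ℕ → ℤ) (Q₀ E : ℝ) (hE : 0 ≤ E)
    (hEq : Equi D N Q₀ E) (hQ₀ : (x : ℝ) ^ (2 * k) ≤ Q₀) (hN : (x : ℝ) ^ (4 * k) * E ≤ N) :
    (((Ioc 0 N).filter (fun j => √(max 1 (mdl g x)) * (x : ℝ) ^ δ <
      |cntz g x (D j) - mdl g x|)).card : ℝ) * (x : ℝ) ^ (2 * k * δ) ≤
        N * ((2 * k).factorial * (2 * Real.exp 1) + 2) := by
  classical
  obtain ⟨V, hV⟩ : ∃ V : ℝ, V = max 1 (mdl g x) := ⟨_, rfl⟩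
  have hV1 : 1 ≤ V := by rw [hV]; exact le_max_left _ _
  have hV0 : 0 < V := by linarith
  have hVm : mdl g x ≤ V := by rw [hV]; exact le_max_right _ _
  have hxr : (1 : ℝ) ≤ x := by exact_mod_cast hx
  have hx0 : (0 : ℝ) < x := by linarith
  have hQ1 : 1 ≤ Q₀ := (one_le_pow₀ hxr).trans hQ₀
  have hN0 : E ≤ N := (le_mul_of_one_le_left hE (one_le_pow₀ hxr)).trans hN
  obtain ⟨h, hh⟩ : ∃ h : ℕ → ℕ → ℝ, h = fun p n => g p n - mean p (g p) := ⟨_, rfl⟩
  have hm := moment_seq (pr x) x (fun p hp => mem_pr.mp hp) h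
    (fun p hp n => by
      rw [hh]
      simp only
      rw [hg.2 p (mem_pr.mp hp).1 n])
    (fun p n => by
      rw [hh, abs_le]
      have h1 := hg.1 p n
      have h2 := mean_mem hg p
      constructor <;> simp only <;> linarith)
    (fun p hp => by
      have hp0 : (p : ℝ) ≠ 0 := by exact_mod_cast (mem_pr.mp hp).1.ne_zero
      rw [hh]
      simp only
      rw [sum_sub_distrib, sum_const, card_range, nsmul_eq_mul, mean, mul_div_cancel₀ _ hp0,
        sub_self])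
    V hV1 (by
      refine le_trans (sum_le_sum fun p hp => ?_) hVm
      have hp0 : (0 : ℝ) < p := by exact_mod_cast (mem_pr.mp hp).1.pos
      rw [div_le_iff₀ hp0]
      have e1 : mean p (g p) * p = ∑ n ∈ range p, g p n := by
        rw [mean, div_mul_cancel₀ _ hp0.ne']
      have h2 := mean_mem hg p
      rw [hh]
      simp only
      have e2 : ∑ n ∈ range p, (g p n - mean p (g p)) ^ 2 =
          ∑ n ∈ range p, g p n ^ 2 - 2 * mean p (g p) * ∑ n ∈ range p, g p n +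
            p * mean p (g p) ^ 2 := by
        have : ∀ n, (g p n - mean p (g p)) ^ 2 = g p n ^ 2 - 2 * mean p (g p) * g p n +
          mean p (g p) ^ 2 := fun n => by ring
        rw [sum_congr rfl fun n _ => this n, sum_add_distrib, sum_sub_distrib, ← mul_sum,
          sum_const, card_range, nsmul_eq_mul]
      have e3 : ∑ n ∈ range p, g p n ^ 2 ≤ ∑ n ∈ range p, g p n := by
        refine sum_le_sum fun n _ => ?_
        have h1 := hg.1 p n
        nlinarith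
      rw [e2, e1, ← e1]
      have e4 : 0 ≤ (p : ℝ) * mean p (g p) ^ 2 := by positivity
      have e5 : 2 * mean p (g p) * (mean p (g p) * p) = 2 * (p * mean p (g p) ^ 2) := by ring
      rw [e5]
      have e6 : ∑ n ∈ range p, g p n ^ 2 ≤ mean p (g p) * p := by rw [e1]; exact e3
      linarith)
    k N D Q₀ E hE hEq hQ₀ hQ1 hN hN0
  have hsum : ∀ j, ∑ p ∈ pr x, h p (res (D j) p) = cntz g x (D j) - mdl g x := by
    intro j
    rw [hh]
    simp only
    rw [sum_sub_distrib]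
    rfl
  rw [← hV]
  have hVk : (0 : ℝ) < V ^ k := by positivity
  have key : (((Ioc 0 N).filter (fun j => √V * (x : ℝ) ^ δ < |cntz g x (D j) - mdl g x|)).card : ℝ) *
      (V ^ k * (x : ℝ) ^ (2 * k * δ)) ≤ ∑ n ∈ Ioc 0 N, (∑ p ∈ pr x, h p (res (D n) p)) ^ (2 * k) := by
    rw [← nsmul_eq_mul, ← sum_const]
    refine le_trans (sum_le_sum fun j hj => ?_)
      (sum_le_sum_of_subset_of_nonneg (filter_subset _ _) fun _ _ _ => by
        rw [pow_mul]; positivity)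
    rw [mem_filter] at hj
    rw [hsum]
    have h1 : (√V * (x : ℝ) ^ δ) ^ (2 * k) ≤ |cntz g x (D j) - mdl g x| ^ (2 * k) :=
      pow_le_pow_left₀ (by positivity) hj.2.le _
    rw [mul_pow, pow_mul (√V), Real.sq_sqrt hV0.le, pow_mul |cntz g x (D j) - mdl g x|, sq_abs,
      ← pow_mul] at h1
    refine le_trans (le_of_eq ?_) h1
    congr 1
    rw [← Real.rpow_natCast, ← Real.rpow_mul hx0.le]
    congr 1
    push_cast
    ring
  have h3 := key.trans hm
  have h4 : (((Ioc 0 N).filter (fun j => √V * (x : ℝ) ^ δ < |cntz g x (D j) - mdl g x|)).card : ℝ) *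
      (x : ℝ) ^ (2 * k * δ) * V ^ k ≤ N * ((2 * k).factorial * (2 * Real.exp 1) + 2) * V ^ k := by
    calc _ = (((Ioc 0 N).filter (fun j => √V * (x : ℝ) ^ δ < |cntz g x (D j) - mdl g x|)).card : ℝ) *
      (V ^ k * (x : ℝ) ^ (2 * k * δ)) := by ring
      _ ≤ _ := h3
      _ = _ := by ring
  exact le_of_mul_le_mul_right h4 hVk

/-- **independence of the primes, along sequences** -/
theorem general_seq (δ : ℝ) (A B : ℕ) (hδ : 0 < δ) (θ C₁ : ℝ) (hθ : 0 < θ) (hC₁ : 1 ≤ C₁) : ∃ W X₀ : ℕ, 1 ≤ W ∧ 1 ≤ X₀ ∧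
    ∀ (ι : Type) (R : ℕ → Finset ι) (g : ℕ → ι → ℕ → ℕ → ℝ), (∀ x, (R x).card ≤ x ^ B) →
      (∀ x r, Sys (g x r)) → ∀ (X N : ℕ) (D : ℕ → ℤ), X₀ ≤ X → Equi D N ((N : ℝ) ^ θ) (C₁ * (N : ℝ) ^ (1 - θ)) →
      ∀ T : Finset ℕ,
      (∀ j ∈ T, 0 < j ∧ j ≤ N ∧ ∃ x, X ≤ x ∧ x ^ W ≤ N ∧ ∃ r ∈ R x,
        √(max 1 (mdl (g x r) x)) * (x : ℝ) ^ δ < |cntz (g x r) x (D j) - mdl (g x r) x|) →
      (T.card : ℝ) * (X : ℝ) ^ A ≤ N := by
  obtain ⟨k, hk⟩ : ∃ k : ℕ, k = ⌈(A + B + 3 : ℝ) / (2 * δ)⌉₊ + 1 := ⟨_, rfl⟩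
  have hkδ : (A + B + 3 : ℝ) ≤ 2 * k * δ := by
    have h1 : (A + B + 3 : ℝ) / (2 * δ) ≤ k := by
      rw [hk]
      push_cast
      have := Nat.le_ceil ((A + B + 3 : ℝ) / (2 * δ))
      linarith
    rw [div_le_iff₀ (by positivity)] at h1
    linarith
  obtain ⟨C, hC⟩ : ∃ C : ℝ, C = (2 * k).factorial * (2 * Real.exp 1) + 2 := ⟨_, rfl⟩
  have hC0 : 0 < C := by rw [hC]; positivity
  obtain ⟨W, hW⟩ : ∃ W : ℕ, W = ⌈(4 * k + 1 : ℝ) / θ⌉₊ + 1 := ⟨_, rfl⟩
  have hWθ : (4 * k + 1 : ℝ) ≤ W * θ := by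
    have h1 : (4 * k + 1 : ℝ) / θ ≤ W := by
      rw [hW]
      push_cast
      have := Nat.le_ceil ((4 * k + 1 : ℝ) / θ)
      linarith
    rwa [div_le_iff₀ hθ] at h1
  refine ⟨W, max (⌈2 * C⌉₊ + 1) (⌈C₁⌉₊ + 1), by omega, by omega, ?_⟩
  intro ι R g hR hg X N D hX hEq T hT
  classical
  have hXa : ⌈2 * C⌉₊ + 1 ≤ X := (le_max_left _ _).trans hX
  have hXb : ⌈C₁⌉₊ + 1 ≤ X := (le_max_right _ _).trans hX
  have hX1 : 1 ≤ X := by omega
  have hXr : (1 : ℝ) ≤ X := by exact_mod_cast hX1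
  have hXC : 2 * C ≤ X := by
    have h1 : ((⌈2 * C⌉₊ + 1 : ℕ) : ℝ) ≤ X := by exact_mod_cast hXa
    push_cast at h1
    have := Nat.le_ceil (2 * C)
    linarith
  have hXC₁ : C₁ ≤ X := by
    have h1 : ((⌈C₁⌉₊ + 1 : ℕ) : ℝ) ≤ X := by exact_mod_cast hXb
    push_cast at h1
    have := Nat.le_ceil C₁
    linarith
  obtain ⟨S, hS⟩ : ∃ S : ℕ → ι → Finset ℕ, S = fun x r => (Ioc 0 N).filter (fun j =>
    √(max 1 (mdl (g x r) x)) * (x : ℝ) ^ δ < |cntz (g x r) x (D j) - mdl (g x r) x|) := ⟨_, rfl⟩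
  have hSc : ∀ x : ℕ, X ≤ x → x ^ W ≤ N → ∀ r, ((S x r).card : ℝ) * (x : ℝ) ^ (A + B + 3) ≤
      N * C := by
    intro x hx hxN r
    have hx1 : 1 ≤ x := hX1.trans hx
    have hxr : (1 : ℝ) ≤ x := by exact_mod_cast hx1
    have hx0 : (0 : ℝ) < x := by linarith
    have hxN' : (x : ℝ) ^ W ≤ N := by exact_mod_cast hxN
    have hN1 : (1 : ℝ) ≤ N := (one_le_pow₀ hxr).trans hxN'
    have hN0 : (0 : ℝ) < N := by linarith
    have hkey : (x : ℝ) ^ (4 * k + 1) ≤ (N : ℝ) ^ θ := by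
      calc (x : ℝ) ^ (4 * k + 1) = (x : ℝ) ^ ((4 * k + 1 : ℕ) : ℝ) := (Real.rpow_natCast _ _).symm
        _ ≤ (x : ℝ) ^ ((W : ℝ) * θ) := by
            apply Real.rpow_le_rpow_of_exponent_le hxr
            push_cast
            exact hWθ
        _ = ((x : ℝ) ^ W) ^ θ := by rw [Real.rpow_mul hx0.le, Real.rpow_natCast]
        _ ≤ (N : ℝ) ^ θ := Real.rpow_le_rpow (by positivity) hxN' hθ.le
    have h1 := markov_seq (g x r) (hg x r) δ k x N hx1 D _ _ (by positivity) hEq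
      ((pow_le_pow_right₀ hxr (by omega)).trans hkey) (by
        have hC₁x : C₁ ≤ x := hXC₁.trans (by exact_mod_cast hx)
        calc (x : ℝ) ^ (4 * k) * (C₁ * (N : ℝ) ^ (1 - θ)) ≤ (x : ℝ) ^ (4 * k) * (x * (N : ℝ) ^ (1 - θ)) := by gcongr
          _ = (x : ℝ) ^ (4 * k + 1) * (N : ℝ) ^ (1 - θ) := by rw [pow_succ]; ring
          _ ≤ (N : ℝ) ^ θ * (N : ℝ) ^ (1 - θ) := by gcongr
          _ = N := by rw [← Real.rpow_add hN0]; simp)
    rw [← hC] at h1
    rw [hS]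
    refine le_trans (mul_le_mul_of_nonneg_left ?_ (Nat.cast_nonneg _)) h1
    rw [← Real.rpow_natCast]
    apply Real.rpow_le_rpow_of_exponent_le hxr
    push_cast
    exact hkδ
  obtain ⟨Y, hY⟩ : ∃ Y : Finset ℕ, Y = (Icc X N).filter (fun x => x ^ W ≤ N) := ⟨_, rfl⟩
  have key : T ⊆ Y.biUnion fun x => (R x).biUnion fun r => S x r := by
    intro j hj
    obtain ⟨hj0, hjN, x, hx1, hx2, r, hr, hbad⟩ := hT j hj
    rw [mem_biUnion]
    refine ⟨x, ?_, ?_⟩
    · rw [hY, mem_filter, mem_Icc]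
      refine ⟨⟨hx1, ?_⟩, hx2⟩
      exact (Nat.le_self_pow (by omega) x).trans hx2
    · rw [mem_biUnion]
      refine ⟨r, hr, ?_⟩
      rw [hS]
      simp only [mem_filter, mem_Ioc]
      exact ⟨⟨hj0, hjN⟩, hbad⟩
  have h1 : (T.card : ℝ) ≤ ∑ x ∈ Y, ∑ r ∈ R x, ((S x r).card : ℝ) := by
    have h2 : T.card ≤ ∑ x ∈ Y, ∑ r ∈ R x, (S x r).card :=
      (card_le_card key).trans (card_biUnion_le.trans (sum_le_sum fun x _ => card_biUnion_le))
    exact_mod_cast h2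
  have h2 : ∀ x ∈ Y, (∑ r ∈ R x, ((S x r).card : ℝ)) * (X : ℝ) ^ (A + 1) ≤
      N * C * ((x : ℝ) ^ 2)⁻¹ := by
    intro x hx
    rw [hY, mem_filter, mem_Icc] at hx
    have hx1 : 1 ≤ x := hX1.trans hx.1.1
    have hxr : (1 : ℝ) ≤ x := by exact_mod_cast hx1
    have hx0 : (0 : ℝ) < x := by linarith
    have h3 : (∑ r ∈ R x, ((S x r).card : ℝ)) * (x : ℝ) ^ (A + B + 3) ≤ (x : ℝ) ^ B * (N * C) := by
      rw [sum_mul]
      refine (sum_le_sum fun r _ => hSc x hx.1.1 hx.2 r).trans ?_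
      rw [sum_const, nsmul_eq_mul]
      refine mul_le_mul_of_nonneg_right ?_ (by positivity)
      exact_mod_cast hR x
    have h4 : (X : ℝ) ^ (A + 1) ≤ (x : ℝ) ^ (A + 1) :=
      pow_le_pow_left₀ (by linarith) (by exact_mod_cast hx.1.1) _
    have h5 : 0 ≤ ∑ r ∈ R x, ((S x r).card : ℝ) := sum_nonneg fun _ _ => Nat.cast_nonneg _
    have h6 : (∑ r ∈ R x, ((S x r).card : ℝ)) * (x : ℝ) ^ (A + 1) * ((x : ℝ) ^ B * (x : ℝ) ^ 2) ≤
        N * C * ((x : ℝ) ^ 2)⁻¹ * ((x : ℝ) ^ B * (x : ℝ) ^ 2) := by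
      calc _ = (∑ r ∈ R x, ((S x r).card : ℝ)) * (x : ℝ) ^ (A + B + 3) := by ring
        _ ≤ (x : ℝ) ^ B * (N * C) := h3
        _ = _ := by field_simp
    have h7 := le_of_mul_le_mul_right h6 (by positivity)
    exact (mul_le_mul_of_nonneg_left h4 h5).trans h7
  have h3 : (T.card : ℝ) * (X : ℝ) ^ (A + 1) ≤ N * C * 2 := by
    calc (T.card : ℝ) * (X : ℝ) ^ (A + 1) ≤
        (∑ x ∈ Y, ∑ r ∈ R x, ((S x r).card : ℝ)) * (X : ℝ) ^ (A + 1) :=
          mul_le_mul_of_nonneg_right h1 (by positivity)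
      _ = ∑ x ∈ Y, (∑ r ∈ R x, ((S x r).card : ℝ)) * (X : ℝ) ^ (A + 1) := sum_mul _ _ _
      _ ≤ ∑ x ∈ Y, N * C * ((x : ℝ) ^ 2)⁻¹ := sum_le_sum h2
      _ = N * C * ∑ x ∈ Y, ((x : ℝ) ^ 2)⁻¹ := by rw [mul_sum]
      _ ≤ N * C * ∑ x ∈ Ioo 0 (N + 1), ((x : ℝ) ^ 2)⁻¹ := by
          apply mul_le_mul_of_nonneg_left _ (by positivity)
          apply sum_le_sum_of_subset_of_nonneg
          · intro x hx
            rw [hY, mem_filter, mem_Icc] at hx
            rw [mem_Ioo]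
            omega
          · intro _ _ _
            positivity
      _ ≤ N * C * 2 := by
          apply mul_le_mul_of_nonneg_left _ (by positivity)
          have := sum_Ioo_inv_sq_le (α := ℝ) 0 (N + 1)
          simpa using this
  have h4 : (T.card : ℝ) * (X : ℝ) ^ A * X ≤ N * X := by
    calc (T.card : ℝ) * (X : ℝ) ^ A * X = (T.card : ℝ) * (X : ℝ) ^ (A + 1) := by ring
      _ ≤ N * C * 2 := h3
      _ = N * (2 * C) := by ring
      _ ≤ N * X := mul_le_mul_of_nonneg_left hXC (Nat.cast_nonneg N)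
  exact le_of_mul_le_mul_right h4 (by linarith)

end Pool.Agent.T2H58.DQ
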