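import Pool.Agent.Results.MP_b89fd0_nt.PolynomialTwists
import Pool.Agent.T2H58.DQ.Gen

/-! Joint Koblitz numbers of twists by polynomial values along a sequence which is equidistributed modulo small `q`. -/

set_option autoImplicit false

namespace Pool.Agent.T2H58.DQ

open Finset Polynomial
open Pool.Agent.Results.MP_b89fd0_nt.PolynomialTwists

theorem tw_main (m d κ : ℕ) (hm : 1 ≤ m) (δ : ℝ) (hδ : 0 < δ) (θ C₁ : ℝ) (hθ : 0 < θ) (hC₁ : 1 ≤ C₁) : ∃ W X₀ : ℕ, 1 ≤ W ∧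
    ∀ (A B : Fin m → ℤ) (f : Fin m → ℤ[X]), (∀ i, 1 ≤ (f i).natDegree ∧ (f i).natDegree ≤ d) →
      ∀ (X N : ℕ) (D : ℕ → ℤ), X₀ ≤ X → Equi D N ((N : ℝ) ^ θ) (C₁ * (N : ℝ) ^ (1 - θ)) →
        (({j : ℕ | 1 ≤ j ∧ j ≤ N ∧ ∃ x : ℕ, X ≤ x ∧ x ^ W ≤ N ∧
          ∃ (t : Fin m → ℕ) (q c : ℕ), 1 ≤ q ∧ q ≤ x ∧ c < q ∧
            √(max 1 (base A B t q c x : ℝ)) * (x : ℝ) ^ δ + ram (∏ i, f i) x <
              |(count A B (fun i => (f i).eval (D j)) t q c x : ℝ) -
                (base A B t q c x : ℝ) / 2 ^ m|}).ncard : ℝ) * (X : ℝ) ^ κ ≤ N := by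
  classical
  obtain ⟨W, X₀, hW, hX₀, hgen⟩ := general_seq (δ / 2) κ (3 * m + 2) (by positivity) θ C₁ hθ hC₁
  obtain ⟨X₁, hX₁⟩ : ∃ X₁ : ℕ, ∀ x : ℕ, X₁ ≤ x → 1 + 4 * (m * d : ℝ) * 2 ^ m ≤ (x : ℝ) ^ (δ / 2) := by
    have h1 : Filter.Tendsto (fun x : ℕ => (x : ℝ) ^ (δ / 2)) Filter.atTop Filter.atTop :=
      (tendsto_rpow_atTop (show 0 < δ / 2 by positivity)).comp tendsto_natCast_atTop_atTop
    have h2 := h1.eventually (Filter.eventually_ge_atTop (1 + 4 * (m * d : ℝ) * 2 ^ m))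
    obtain ⟨X₁, h3⟩ := Filter.eventually_atTop.mp h2
    exact ⟨X₁, h3⟩
  refine ⟨W, max X₀ (max X₁ 5), hW, ?_⟩
  intro A B f hf X N D hX hEq
  have hXa : X₀ ≤ X := (le_max_left _ _).trans hX
  have hXb : X₁ ≤ X := (le_max_left _ _).trans ((le_max_right _ _).trans hX)
  have hXc : 5 ≤ X := (le_max_right _ _).trans ((le_max_right _ _).trans hX)
  obtain ⟨R, hR⟩ : ∃ R : ℕ → Finset ((Fin m → ℕ) × ℕ × ℕ), R = fun x : ℕ => if x < 5 then ∅ else
    (Fintype.piFinset fun _ : Fin m => range (x ^ 2 + 2)) ×ˢ (Icc 1 x ×ˢ range x) := ⟨_, rfl⟩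
  obtain ⟨g, hg⟩ : ∃ g : ℕ → ((Fin m → ℕ) × ℕ × ℕ) → ℕ → ℕ → ℝ, g =
    fun (_ : ℕ) (s : (Fin m → ℕ) × ℕ × ℕ) (p j : ℕ) =>
      if Tw A B (fun i => (f i).eval (j : ℤ)) s.1 s.2.1 s.2.2 p then (1 : ℝ) else 0 := ⟨_, rfl⟩
  have hRc : ∀ x, (R x).card ≤ x ^ (3 * m + 2) := by
    intro x
    rw [hR]
    simp only
    split_ifs with h
    · simp
    · push Not at h
      rw [card_product, card_product, Fintype.card_piFinset_const, card_range, Nat.card_Icc, card_range]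
      have h2 : x ^ 2 + 2 ≤ x ^ 3 := by nlinarith [Nat.pow_le_pow_left h 2]
      calc (x ^ 2 + 2) ^ m * ((x + 1 - 1) * x) ≤ (x ^ 3) ^ m * (x * x) := by
            apply Nat.mul_le_mul (Nat.pow_le_pow_left h2 m)
            rw [Nat.add_sub_cancel]
        _ = x ^ (3 * m + 2) := by rw [← pow_mul]; ring
  have hsys : ∀ x s, Pool.Agent.R418.GE.Sys (g x s) := by
    intro x s
    rw [hg]
    refine ⟨fun p n => ?_, fun p hp n => ?_⟩
    · simp only
      split_ifs <;> norm_num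
    · simp only
      have key : Tw A B (fun i => (f i).eval ((n + p : ℕ) : ℤ)) s.1 s.2.1 s.2.2 p ↔
          Tw A B (fun i => (f i).eval (n : ℤ)) s.1 s.2.1 s.2.2 p := by
        refine and_congr_right fun _ => and_congr_right fun _ => forall_congr' fun i => ?_
        have h1 : (((f i).eval ((n + p : ℕ) : ℤ) : ℤ) : ZMod p) =
            (((f i).eval (n : ℤ) : ℤ) : ZMod p) := by
          have h1 := Polynomial.sub_dvd_eval_sub ((n + p : ℕ) : ℤ) (n : ℤ) (f i)
          have h2 : ((n + p : ℕ) : ℤ) - (n : ℤ) = p := by push_cast; ring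
          rw [h2, ← ZMod.intCast_zmod_eq_zero_iff_dvd] at h1
          push_cast at h1 ⊢
          exact sub_eq_zero.mp h1
        have e1 : ((A i * ((f i).eval ((n + p : ℕ) : ℤ)) ^ 2 : ℤ) : ZMod p) = ((A i * ((f i).eval (n : ℤ)) ^ 2 : ℤ) : ZMod p) := by
          push_cast at h1 ⊢
          rw [h1]
        have e2 : ((B i * ((f i).eval ((n + p : ℕ) : ℤ)) ^ 3 : ℤ) : ZMod p) = ((B i * ((f i).eval (n : ℤ)) ^ 3 : ℤ) : ZMod p) := by
          push_cast at h1 ⊢
          rw [h1]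
        show GoodPrime (A i * ((f i).eval ((n + p : ℕ) : ℤ)) ^ 2) (B i * ((f i).eval ((n + p : ℕ) : ℤ)) ^ 3) p ∧
          TimesPrime (s.1 i) (points (A i * ((f i).eval ((n + p : ℕ) : ℤ)) ^ 2) (B i * ((f i).eval ((n + p : ℕ) : ℤ)) ^ 3) p) ↔
          GoodPrime (A i * ((f i).eval (n : ℤ)) ^ 2) (B i * ((f i).eval (n : ℤ)) ^ 3) p ∧
          TimesPrime (s.1 i) (points (A i * ((f i).eval (n : ℤ)) ^ 2) (B i * ((f i).eval (n : ℤ)) ^ 3) p)
        rw [good_congr p e1 e2, points_congr p e1 e2]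
      exact if_congr key rfl rfl
  have hcongr : ∀ (n : ℤ) (p : ℕ) (s : (Fin m → ℕ) × ℕ × ℕ), Tw A B (fun i => (f i).eval ((res n p : ℕ) : ℤ)) s.1 s.2.1 s.2.2 p ↔
      Tw A B (fun i => (f i).eval n) s.1 s.2.1 s.2.2 p := by
    intro n p s
    refine and_congr_right fun hp => and_congr_right fun _ => forall_congr' fun i => ?_
    have hp0 : (p : ℤ) ≠ 0 := by exact_mod_cast hp.ne_zero
    have h1 : (((f i).eval ((res n p : ℕ) : ℤ) : ℤ) : ZMod p) = (((f i).eval n : ℤ) : ZMod p) := by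
      have h1 := Polynomial.sub_dvd_eval_sub ((res n p : ℕ) : ℤ) n (f i)
      have h2 : (p : ℤ) ∣ ((res n p : ℕ) : ℤ) - n := by
        unfold res
        rw [Int.toNat_of_nonneg (Int.emod_nonneg n hp0)]
        exact ⟨-(n / p), by rw [Int.emod_def]; ring⟩
      have h3 := h2.trans h1
      rw [← ZMod.intCast_zmod_eq_zero_iff_dvd] at h3
      push_cast at h3 ⊢
      exact sub_eq_zero.mp h3
    have e1 : ((A i * ((f i).eval ((res n p : ℕ) : ℤ)) ^ 2 : ℤ) : ZMod p) = ((A i * ((f i).eval n) ^ 2 : ℤ) : ZMod p) := by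
      push_cast at h1 ⊢
      rw [h1]
    have e2 : ((B i * ((f i).eval ((res n p : ℕ) : ℤ)) ^ 3 : ℤ) : ZMod p) = ((B i * ((f i).eval n) ^ 3 : ℤ) : ZMod p) := by
      push_cast at h1 ⊢
      rw [h1]
    show GoodPrime (A i * ((f i).eval ((res n p : ℕ) : ℤ)) ^ 2) (B i * ((f i).eval ((res n p : ℕ) : ℤ)) ^ 3) p ∧
      TimesPrime (s.1 i) (points (A i * ((f i).eval ((res n p : ℕ) : ℤ)) ^ 2) (B i * ((f i).eval ((res n p : ℕ) : ℤ)) ^ 3) p) ↔
      GoodPrime (A i * ((f i).eval n) ^ 2) (B i * ((f i).eval n) ^ 3) p ∧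
      TimesPrime (s.1 i) (points (A i * ((f i).eval n) ^ 2) (B i * ((f i).eval n) ^ 3) p)
    rw [good_congr p e1 e2, points_congr p e1 e2]
  have hcnt : ∀ x s j, cntz (g x s) x (D j) =
      (count A B (fun i => (f i).eval (D j)) s.1 s.2.1 s.2.2 x : ℝ) := by
    intro x s j
    have h0 : cntz (g x s) x (D j) = ∑ p ∈ Pool.Agent.R418.GE.pr x,
        (if Tw A B (fun i => (f i).eval (D j)) s.1 s.2.1 s.2.2 p then (1 : ℝ) else 0) := by
      rw [cntz, hg]
      simp only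
      exact sum_congr rfl fun p _ => if_congr (hcongr (D j) p s) rfl rfl
    rw [h0, count, Pool.Agent.R418.GE.pr]
    rw [← sum_filter, sum_const, nsmul_eq_mul, mul_one, filter_filter]
    congr 2
    refine filter_congr fun p _ => ?_
    unfold Tw
    exact ⟨fun h => h.2, fun h => ⟨h.1, h⟩⟩
  have hdeg : ((∏ i, f i).natDegree : ℝ) ≤ m * d := by
    have h1 : (∏ i, f i).natDegree ≤ m * d := by
      refine (natDegree_prod_le _ _).trans ((sum_le_sum fun i _ => (hf i).2).trans ?_)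
      simp
    exact_mod_cast h1
  have hbase : ∀ (t : Fin m → ℕ) (q c x : ℕ), (base A B t q c x : ℝ) =
      ∑ S : Finset (Fin m), ∑ p ∈ Pool.Agent.R418.GE.pr x, (if Ch A B t q c p S then (1 : ℝ) else 0) := by
    intro t q c x
    have h0 : base A B t q c x = ((Pool.Agent.R418.GE.pr x ×ˢ (univ : Finset (Finset (Fin m)))).filter
        (fun z => Ch A B t q c z.1 z.2)).card := by
      unfold base
      refine congrArg card (Finset.ext fun z => ?_)
      rw [mem_filter, mem_filter, mem_product, mem_product, Pool.Agent.R418.GE.mem_pr, mem_range]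
      constructor
      · rintro ⟨⟨h1, h2⟩, h3⟩
        exact ⟨⟨⟨h3.1, by omega⟩, h2⟩, h3⟩
      · rintro ⟨⟨⟨h1, h1'⟩, h2⟩, h3⟩
        exact ⟨⟨by omega, h2⟩, h3⟩
    rw [h0, card_filter, sum_product, sum_comm]
    push_cast
    rfl
  have hram : ∀ x : ℕ, (ram (∏ i, f i) x : ℝ) = ∑ p ∈ Pool.Agent.R418.GE.pr x,
      (if p.Prime ∧ ((p : ℤ) ∣ (∏ i, f i).leadingCoeff ∨
        (p : ℤ) ∣ resultant (∏ i, f i) (derivative (∏ i, f i))) then (1 : ℝ) else 0) := by
    intro x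
    rw [ram, Pool.Agent.R418.GE.pr, ← sum_filter, sum_const, nsmul_eq_mul, mul_one, filter_filter]
    congr 2
    refine filter_congr fun p _ => ?_
    exact ⟨fun h => ⟨h.1, h⟩, fun h => h.2⟩
  have hmdl : ∀ (x : ℕ) (s : (Fin m → ℕ) × ℕ × ℕ),
      |Pool.Agent.R418.GE.mdl (g x s) x - (base A B s.1 s.2.1 s.2.2 x : ℝ) / 2 ^ m| ≤
        4 * (m * d) * 2 ^ m * √(base A B s.1 s.2.1 s.2.2 x : ℝ) + ram (∏ i, f i) x := by
    intro x s
    have e1 : (base A B s.1 s.2.1 s.2.2 x : ℝ) / 2 ^ m = ∑ p ∈ Pool.Agent.R418.GE.pr x,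
        ∑ S : Finset (Fin m), (if Ch A B s.1 s.2.1 s.2.2 p S then (1 : ℝ) / 2 ^ m else 0) := by
      rw [hbase, sum_comm, sum_div]
      refine sum_congr rfl fun p _ => ?_
      rw [sum_div]
      refine sum_congr rfl fun S _ => ?_
      rw [ite_div, zero_div]
    rw [Pool.Agent.R418.GE.mdl, e1, ← sum_sub_distrib]
    refine (abs_sum_le_sum_abs _ _).trans ?_
    refine (sum_le_sum fun p _ => ?_).trans (b := ∑ p ∈ Pool.Agent.R418.GE.pr x,
      ((∑ S : Finset (Fin m), if Ch A B s.1 s.2.1 s.2.2 p S then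
          2 * ((∏ i, f i).natDegree : ℝ) * (1 / √p) else 0) +
      (if p.Prime ∧ ((p : ℤ) ∣ (∏ i, f i).leadingCoeff ∨
        (p : ℤ) ∣ resultant (∏ i, f i) (derivative (∏ i, f i))) then 1 else 0))) ?_
    · rw [hg]
      exact mean_twist hm A B f (fun i => (hf i).1) s.1 s.2.1 s.2.2 p
    · rw [sum_add_distrib, ← hram, sum_comm]
      refine add_le_add ?_ le_rfl
      have hS : ∀ S : Finset (Fin m), ∑ p ∈ Pool.Agent.R418.GE.pr x, (if Ch A B s.1 s.2.1 s.2.2 p S then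
          2 * ((∏ i, f i).natDegree : ℝ) * (1 / √p) else 0) ≤ 4 * (m * d) * √(base A B s.1 s.2.1 s.2.2 x : ℝ) := by
        intro S
        rw [← sum_filter, ← mul_sum]
        have h1 := Pool.Agent.R418.PT.sum_inv_sqrt_le ((Pool.Agent.R418.GE.pr x).filter
          (fun p => Ch A B s.1 s.2.1 s.2.2 p S)) (by
            intro n hn
            rw [mem_filter] at hn
            exact hn.2.1.one_lt.le)
        have h2 : ((((Pool.Agent.R418.GE.pr x).filter (fun p => Ch A B s.1 s.2.1 s.2.2 p S)).card : ℕ) : ℝ) ≤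
            base A B s.1 s.2.1 s.2.2 x := by
          rw [hbase]
          refine le_trans (le_of_eq ?_) (single_le_sum (f := fun S : Finset (Fin m) => ∑ p ∈ Pool.Agent.R418.GE.pr x,
            (if Ch A B s.1 s.2.1 s.2.2 p S then (1 : ℝ) else 0)) (fun S _ => sum_nonneg fun p _ => by split_ifs <;> norm_num)
            (mem_univ S))
          rw [← sum_filter, sum_const, nsmul_eq_mul, mul_one]
        have h3 := Real.sqrt_le_sqrt h2
        calc _ ≤ 2 * ((∏ i, f i).natDegree : ℝ) * (2 * √(base A B s.1 s.2.1 s.2.2 x : ℝ)) := by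
              apply mul_le_mul_of_nonneg_left (h1.trans _) (by positivity)
              linarith
          _ = 4 * ((∏ i, f i).natDegree : ℝ) * √(base A B s.1 s.2.1 s.2.2 x : ℝ) := by ring
          _ ≤ 4 * (m * d) * √(base A B s.1 s.2.1 s.2.2 x : ℝ) := by
              apply mul_le_mul_of_nonneg_right _ (Real.sqrt_nonneg _)
              linarith
      refine (sum_le_sum fun S _ => hS S).trans (le_of_eq ?_)
      rw [sum_const, card_univ, Fintype.card_finset, Fintype.card_fin, nsmul_eq_mul]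
      push_cast
      ring
  have hmdl_le : ∀ (x : ℕ) (s : (Fin m → ℕ) × ℕ × ℕ),
      Pool.Agent.R418.GE.mdl (g x s) x ≤ base A B s.1 s.2.1 s.2.2 x := by
    intro x s
    rw [Pool.Agent.R418.GE.mdl, hbase, sum_comm]
    refine sum_le_sum fun p _ => ?_
    by_cases hno : ∀ S, ¬ Ch A B s.1 s.2.1 s.2.2 p S
    · rw [Pool.Agent.R418.GE.mean]
      have h0 : ∀ n, g x s p n = 0 := by
        intro n
        rw [hg]
        simp only
        rw [if_neg]
        intro hT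
        obtain ⟨S, hS, _⟩ := (tw_iff A B _ s.1 s.2.1 s.2.2 p hm).1 hT
        exact hno S hS
      rw [sum_congr rfl fun n _ => h0 n]
      simp only [sum_const_zero, zero_div]
      exact sum_nonneg fun S _ => by split_ifs <;> norm_num
    · push Not at hno
      obtain ⟨S, hS⟩ := hno
      refine (Pool.Agent.R418.GE.mean_mem (hsys x s) p).2.trans ?_
      refine le_trans (le_of_eq ?_) (single_le_sum (f := fun S : Finset (Fin m) =>
            (if Ch A B s.1 s.2.1 s.2.2 p S then (1 : ℝ) else 0)) (fun S _ => by split_ifs <;> norm_num)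
            (mem_univ S))
      rw [if_pos hS]
  have hfin : ({j : ℕ | 1 ≤ j ∧ j ≤ N ∧ ∃ x : ℕ, X ≤ x ∧ x ^ W ≤ N ∧
          ∃ (t : Fin m → ℕ) (q c : ℕ), 1 ≤ q ∧ q ≤ x ∧ c < q ∧
            √(max 1 (base A B t q c x : ℝ)) * (x : ℝ) ^ δ + ram (∏ i, f i) x <
              |(count A B (fun i => (f i).eval (D j)) t q c x : ℝ) -
                (base A B t q c x : ℝ) / 2 ^ m|} : Set ℕ).Finite :=
    (Set.finite_Iic N).subset fun j hj => hj.2.1
  rw [Set.ncard_eq_toFinset_card _ hfin]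
  refine hgen _ R g hRc hsys X N D hXa hEq _ fun j hj => ?_
  obtain ⟨hj0, hjN, x, hx1, hx2, t, q, c, hq1, hq2, hc, hbad⟩ :=
    (Set.Finite.mem_toFinset hfin).1 hj
  have hx5 : ¬ x < 5 := by omega
  have hxr : (1 : ℝ) ≤ x := by
    have : 1 ≤ x := by omega
    exact_mod_cast this
  have hx0 : (0 : ℝ) < x := by linarith
  refine ⟨hj0, hjN, x, hx1, hx2, (t, q, c), ?_, ?_⟩
  · rw [hR]
    simp only
    rw [if_neg hx5, mem_product, mem_product, Fintype.mem_piFinset, mem_Icc, mem_range]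
    refine ⟨?_, ⟨hq1, hq2⟩, lt_of_lt_of_le hc hq2⟩
    -- some prime is counted
    have hex : ∃ p : ℕ, p ≤ x ∧ ∃ S, Ch A B t q c p S := by
      by_contra hcon
      push Not at hcon
      have hb0 : (base A B t q c x : ℝ) = 0 := by
        rw [hbase]
        apply sum_eq_zero
        intro S _
        apply sum_eq_zero
        intro p hp
        rw [if_neg]
        exact hcon p (Pool.Agent.R418.GE.mem_pr.1 hp).2 S
      have hc0 : count A B (fun i => (f i).eval (D j)) t q c x = 0 := by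
        rw [count, card_eq_zero, filter_eq_empty_iff]
        intro p hp hT
        rw [mem_range] at hp
        obtain ⟨S, hS, _⟩ := (tw_iff A B (fun i => (f i).eval (D j)) t q c p hm).1 hT
        exact hcon p (by omega) S hS
      rw [hb0, hc0] at hbad
      have : 0 ≤ √(max 1 (0 : ℝ)) * (x : ℝ) ^ δ + ram (∏ i, f i) x := by positivity
      norm_num at hbad
      norm_num at this
      linarith
    obtain ⟨p, hpx, S, hS⟩ := hex
    intro i
    rw [mem_range]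
    obtain ⟨h1, h2⟩ := two_points_le (A i) (B i) hS.1.two_le hpx
    refine times_le (hS.2.2 i).2 ?_
    split_ifs
    · exact h1
    · exact h2
  · rw [hcnt]
    simp only
    have h1 := hmdl x (t, q, c)
    have h2 := hmdl_le x (t, q, c)
    simp only at h1 h2
    obtain ⟨M, hM⟩ : ∃ M : ℝ, M = Pool.Agent.R418.GE.mdl (g x (t, q, c)) x := ⟨_, rfl⟩
    obtain ⟨b, hb⟩ : ∃ b : ℝ, b = base A B t q c x := ⟨_, rfl⟩
    obtain ⟨k, hk⟩ : ∃ k : ℝ, k = count A B (fun i => (f i).eval (D j)) t q c x := ⟨_, rfl⟩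
    rw [← hM, ← hb] at h1 h2
    rw [← hb, ← hk] at hbad
    rw [← hM, ← hk]
    have hs1 : √(max 1 M) ≤ √(max 1 b) := Real.sqrt_le_sqrt (max_le_max le_rfl h2)
    have hs2 : √b ≤ √(max 1 b) := Real.sqrt_le_sqrt (le_max_right _ _)
    have hs0 : 0 ≤ √(max 1 b) := Real.sqrt_nonneg _
    have hxd : 1 + 4 * (m * d : ℝ) * 2 ^ m ≤ (x : ℝ) ^ (δ / 2) := hX₁ x (hXb.trans hx1)
    have hmd : (0 : ℝ) ≤ m * d := by positivity
    have hmd2 : (0 : ℝ) ≤ 4 * (m * d) * 2 ^ m := by positivity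
    have hxd1 : 1 ≤ (x : ℝ) ^ (δ / 2) := by linarith
    have hsplit : (x : ℝ) ^ δ = (x : ℝ) ^ (δ / 2) * (x : ℝ) ^ (δ / 2) := by
      rw [← Real.rpow_add hx0]
      congr 1
      ring
    have h3 : |k - b / 2 ^ m| ≤ |k - M| + |M - b / 2 ^ m| := abs_sub_le _ _ _
    obtain ⟨w, hw⟩ : ∃ w : ℝ, w = 4 * (m * d) * 2 ^ m := ⟨_, rfl⟩
    rw [← hw] at hmd2 hxd h1
    have h4 : √(max 1 M) * (x : ℝ) ^ (δ / 2) + w * √b ≤
        √(max 1 b) * (x : ℝ) ^ δ := by
      calc √(max 1 M) * (x : ℝ) ^ (δ / 2) + w * √b ≤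
          √(max 1 b) * (x : ℝ) ^ (δ / 2) + w * √(max 1 b) := by gcongr
        _ = √(max 1 b) * ((x : ℝ) ^ (δ / 2) + w) := by ring
        _ ≤ √(max 1 b) * ((x : ℝ) ^ (δ / 2) * (x : ℝ) ^ (δ / 2)) := by
            apply mul_le_mul_of_nonneg_left _ hs0
            nlinarith
        _ = _ := by rw [← hsplit]
    linarith

end Pool.Agent.T2H58.DQ
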